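import Pool.Agent.Work.MP_e214ac_gt.Stmt

/-!
# Module M/Cech: additive families of smooth functions on the overlaps of a cover are coboundaries

Proof.
* `M` is a smooth manifold for the model `𝓘(ℝ, Fin r → ℝ)`: `isManifold_of_contDiffOn`; the transition
  maps are affine near every point by `hM` (`isManifold_of_affine`).
* `SmOn f U` (smooth in all charts of the atlas) is equivalent to
  `ContMDiffOn 𝓘(ℝ, Fin r → ℝ) 𝓘(ℝ, ℝ) ∞ f U` for open `U` (`contMDiffOn_iff_of_mem_maximalAtlas`,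
  or work with the charts directly).
* Take a smooth partition of unity `(ρ_q)_{q : M}` subordinate to the cover `(O q)_{q : M}`
  (`SmoothPartitionOfUnity.exists_isSubordinate` for the closed set `univ`).  Put
  `h p x = ∑ᶠ q, ρ_q x * g p q x`.  Smooth on `O p`: near a point of `O p` only finitely many `ρ_q` are
  not identically zero, and each `x ↦ ρ_q x * g p q x` is smooth on `O p` (on `O p ∩ O q` it is a
  product of smooth functions, and it vanishes on the open complement of `tsupport ρ_q ⊆ O q`).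
  Additivity: for `x ∈ O p ∩ O q`, `h p x - h q x = ∑ᶠ s, ρ_s x (g p s x - g q s x)
  = ∑ᶠ s, ρ_s x * g p q x = g p q x` (for `ρ_s x ≠ 0` we have `x ∈ O s` and `hga` applies).
-/

set_option autoImplicit false

open scoped ContDiff Topology Manifold

namespace E214

variable {r : ℕ} {M : Type} [TopologicalSpace M] [ChartedSpace (Fin r → ℝ) M]

/-- `f` is smooth on `U`, tested in the charts of the atlas -/
def SmOn (r : ℕ) {M : Type} [TopologicalSpace M] [ChartedSpace (Fin r → ℝ) M] (f : M → ℝ)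
    (U : Set M) : Prop :=
  ∀ e ∈ atlas (Fin r → ℝ) M, ContDiffOn ℝ ∞ (fun y => f (e.symm y)) (e.target ∩ e.symm ⁻¹' U)

theorem isManifold_of_affine (hM : IsAffineManifold r M) :
    IsManifold 𝓘(ℝ, Fin r → ℝ) ∞ M := by

  refine isManifold_of_contDiffOn 𝓘(ℝ, Fin r → ℝ) ∞ M ?_
  intro e e' he he' y hy
  have hy1 : y ∈ e.target ∩ e.symm ⁻¹' e'.source := by
    have := hy.1
    simpa using this
  have hp : e.symm y ∈ e.source ∩ e'.source := ⟨e.map_target hy1.1, hy1.2⟩
  obtain ⟨A, b, hA⟩ := hM e he e' he' (e.symm y) hp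
  have hev : ∀ᶠ z in 𝓝 y, e' (e.symm z) = A.mulVec z + b := by
    have h1 : Filter.Tendsto e.symm (𝓝 y) (𝓝 (e.symm y)) := (e.continuousAt_symm hy1.1)
    have h2 := h1.eventually hA
    filter_upwards [h2, e.open_target.mem_nhds hy1.1] with z hz hzt
    rw [hz, e.right_inv hzt]
  have hsm : ContDiffAt ℝ ∞ (fun z : Fin r → ℝ => A.mulVec z + b) y := by
    have : (fun z : Fin r → ℝ => A.mulVec z + b) = fun z => (Matrix.mulVecLin A) z + b := rfl
    rw [this]
    exact ((Matrix.mulVecLin A).toContinuousLinearMap.contDiff.add contDiff_const).contDiffAt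
  have hfin : ContDiffAt ℝ ∞ (fun z : Fin r → ℝ => e' (e.symm z)) y :=
    hsm.congr_of_eventuallyEq hev
  exact hfin.contDiffWithinAt
private theorem cech_iff [IsManifold 𝓘(ℝ, Fin r → ℝ) ∞ M] (e : OpenPartialHomeomorph M (Fin r → ℝ))
    (he : e ∈ atlas (Fin r → ℝ) M) (f : M → ℝ) (x : M) (hx : x ∈ e.source) :
    ContMDiffAt 𝓘(ℝ, Fin r → ℝ) 𝓘(ℝ, ℝ) ∞ f x ↔
      ContDiffAt ℝ ∞ (fun y => f (e.symm y)) (e x) := by
  have hmax : e ∈ IsManifold.maximalAtlas 𝓘(ℝ, Fin r → ℝ) ∞ M :=
    IsManifold.subset_maximalAtlas he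
  have hmax' : (OpenPartialHomeomorph.refl ℝ) ∈ IsManifold.maximalAtlas 𝓘(ℝ, ℝ) ∞ ℝ :=
    IsManifold.subset_maximalAtlas (by simp)
  rw [contMDiffAt_iff_of_mem_maximalAtlas (x := x) hmax hmax' hx (by simp)]
  have hkey : ContDiffWithinAt ℝ ∞
      ((OpenPartialHomeomorph.refl ℝ).extend 𝓘(ℝ, ℝ) ∘ f ∘ (e.extend 𝓘(ℝ, Fin r → ℝ)).symm)
      (Set.range 𝓘(ℝ, Fin r → ℝ)) (e.extend 𝓘(ℝ, Fin r → ℝ) x) ↔
      ContDiffAt ℝ ∞ (fun y => f (e.symm y)) (e x) := by
    have h1 : Set.range 𝓘(ℝ, Fin r → ℝ) = Set.univ := by simp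
    rw [h1, contDiffWithinAt_univ]
    rfl
  rw [hkey]
  constructor
  · exact fun h => h.2
  · intro h
    refine ⟨?_, h⟩
    have h2 : ContinuousAt (fun z => f (e.symm (e z))) x :=
      ContinuousAt.comp (f := e) (g := fun y => f (e.symm y)) h.continuousAt
        (e.continuousAt hx)
    refine h2.congr ?_
    filter_upwards [e.open_source.mem_nhds hx] with z hz
    simp only [e.left_inv hz]

private theorem cech_smOn [IsManifold 𝓘(ℝ, Fin r → ℝ) ∞ M] (f : M → ℝ) (U : Set M)
    (hU : IsOpen U) :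
    SmOn r f U ↔ ∀ x ∈ U, ContMDiffAt 𝓘(ℝ, Fin r → ℝ) 𝓘(ℝ, ℝ) ∞ f x := by
  constructor
  · intro h x hx
    have he := chart_mem_atlas (Fin r → ℝ) x
    have hxs := mem_chart_source (Fin r → ℝ) x
    rw [cech_iff (chartAt (Fin r → ℝ) x) he f x hxs]
    have hop : IsOpen ((chartAt (Fin r → ℝ) x).target ∩ (chartAt (Fin r → ℝ) x).symm ⁻¹' U) :=
      (chartAt (Fin r → ℝ) x).symm.isOpen_inter_preimage hU
    refine (h _ he).contDiffAt (hop.mem_nhds ⟨(chartAt (Fin r → ℝ) x).map_source hxs, ?_⟩)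
    change (chartAt (Fin r → ℝ) x).symm ((chartAt (Fin r → ℝ) x) x) ∈ U
    rw [(chartAt (Fin r → ℝ) x).left_inv hxs]
    exact hx
  · intro h e he y hy
    have h1 := h (e.symm y) hy.2
    rw [cech_iff e he f _ (e.map_target hy.1), e.right_inv hy.1] at h1
    exact h1.contDiffWithinAt

theorem cech [T2Space M] [SigmaCompactSpace M] (hM : IsAffineManifold r M) (O : M → Set M)
    (hO : ∀ p, IsOpen (O p)) (hmem : ∀ p, p ∈ O p) (g : M → M → M → ℝ)
    (hgs : ∀ p q, SmOn r (g p q) (O p ∩ O q))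
    (hga : ∀ p q s x, x ∈ O p → x ∈ O q → x ∈ O s → g p q x + g q s x = g p s x) :
    ∃ h : M → M → ℝ, (∀ p, SmOn r (h p) (O p)) ∧
      ∀ p q x, x ∈ O p → x ∈ O q → h p x = g p q x + h q x := by

  have := isManifold_of_affine hM
  have hcov : (Set.univ : Set M) ⊆ ⋃ i, O i := fun x _ => Set.mem_iUnion.2 ⟨x, hmem x⟩
  obtain ⟨ρ, hρ⟩ := SmoothPartitionOfUnity.exists_isSubordinate 𝓘(ℝ, Fin r → ℝ) isClosed_univ
    O hO hcov
  refine ⟨fun p x => ∑ᶠ q, ρ q x • g p q x, ?_, ?_⟩
  · intro p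
    rw [cech_smOn _ _ (hO p)]
    intro x hx
    refine ρ.contMDiffAt_finsum ?_
    intro q hq
    have hxq : x ∈ O q := hρ q hq
    exact (cech_smOn _ _ ((hO p).inter (hO q))).1 (hgs p q) x ⟨hx, hxq⟩
  · intro p q x hp hq
    have hfin : ∀ p', (Function.support fun s => ρ s x • g p' s x).Finite := by
      intro p'
      refine (ρ.locallyFinite.point_finite x).subset ?_
      intro s hs
      simp only [Function.mem_support, Set.mem_setOf_eq] at hs ⊢
      intro h0
      apply hs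
      rw [h0, zero_smul]
    have hfin1 : (Function.support fun s => ρ s x • g p q x).Finite := by
      refine (ρ.locallyFinite.point_finite x).subset ?_
      intro s hs
      simp only [Function.mem_support, Set.mem_setOf_eq] at hs ⊢
      intro h0
      apply hs
      rw [h0, zero_smul]
    have h1 : ∀ s, ρ s x • g p s x = ρ s x • g p q x + ρ s x • g q s x := by
      intro s
      by_cases h0 : ρ s x = 0
      · rw [h0]; simp
      · have hxs : x ∈ O s := hρ s (subset_tsupport _ h0)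
        rw [← smul_add, hga p q s x hp hq hxs]
    have h2 : (∑ᶠ s, ρ s x • g p s x) = (∑ᶠ s, ρ s x • g p q x) + ∑ᶠ s, ρ s x • g q s x := by
      rw [← finsum_add_distrib hfin1 (hfin q)]
      exact finsum_congr h1
    have h3 : (∑ᶠ s, ρ s x • g p q x) = g p q x := by
      have hs : ∑ᶠ s, ρ s x = 1 := ρ.sum_eq_one (Set.mem_univ x)
      have hfs : (Function.support fun s => ρ s x).Finite := ρ.locallyFinite.point_finite x
      rw [← finsum_smul, hs, one_smul]
    change (∑ᶠ s, ρ s x • g p s x) = g p q x + ∑ᶠ s, ρ s x • g q s x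
    rw [h2, h3]
end E214
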