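import Pool.Agent.Work.MP_e214ac_gt.M.MMor
import Pool.Agent.Work.MP_e214ac_gt.S.MorAff
import Pool.Agent.Work.MP_e214ac_gt.S.PullEx
import Pool.Agent.Work.MP_e214ac_gt.S.PullB

/-!
# M/Dat: the data on an adapted open set (definitions, fixed file)
-/

set_option autoImplicit false

open scoped ContDiff Topology

namespace E214

open TopologicalSpace

variable {r : ℕ} {M : Type} [TopologicalSpace M] [ChartedSpace (Fin r → ℝ) M]
  {P : BivectorField r M} {n : ℕ} {F : List (ℝ × Diagram n)}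

theorem Loc.rho_mor (α : Loc P F) {e' : OpenPartialHomeomorph M (Fin r → ℝ)}
    (he' : e' ∈ atlas (Fin r → ℝ) M) {W : Opens (JJ r → ℝ)} (h : Good α e' W) :
    Mor F α.S (locAff P e' he' W h.target) (α.ρ h) :=
  mor_of_affHom (α.rho_affHom he' h) F

/-- the data of `α` in the chart `e'`, on the adapted open set `W` -/
noncomputable def Loc.dat (α : Loc P F) {e' : OpenPartialHomeomorph M (Fin r → ℝ)}
    (he' : e' ∈ atlas (Fin r → ℝ) M) {W : Opens (JJ r → ℝ)} (h : Good α e' W) :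
    PDat F (locAff P e' he' W h.target) :=
  Classical.choose (pull_exists (α.rho_mor he' h) α.D)

theorem Loc.dat_pull (α : Loc P F) {e' : OpenPartialHomeomorph M (Fin r → ℝ)}
    (he' : e' ∈ atlas (Fin r → ℝ) M) {W : Opens (JJ r → ℝ)} (h : Good α e' W) :
    IsPull (α.ρ h) α.D (α.dat he' h) :=
  Classical.choose_spec (pull_exists (α.rho_mor he' h) α.D)

theorem Loc.dat_cas (α : Loc P F) {e' : OpenPartialHomeomorph M (Fin r → ℝ)}
    (he' : e' ∈ atlas (Fin r → ℝ) M) {W : Opens (JJ r → ℝ)} (h : Good α e' W) :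
    (α.dat he' h).Cas :=
  pull_cas (α.rho_mor he' h) (α.dat_pull he' h) α.hD

/-- a change of the chart, as a map between open subsets of `ℝ^r × ℝ^4` -/
noncomputable def kap (e₁ e₂ : OpenPartialHomeomorph M (Fin r → ℝ)) (z : JJ r → ℝ) : JJ r → ℝ :=
  pt (e₁ (e₂.symm (baseP z))) (fibP z)

/-- `W₂` (in the chart `e₂`) is mapped into `W₁` (in the chart `e₁`) by an affine map. -/
structure Trans (e₁ e₂ : OpenPartialHomeomorph M (Fin r → ℝ)) (W₁ W₂ : Opens (JJ r → ℝ)) :
    Prop where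
  target : ∀ z ∈ W₂, baseP z ∈ e₂.target
  source : ∀ z ∈ W₂, e₂.symm (baseP z) ∈ e₁.source
  maps : ∀ z ∈ W₂, kap e₁ e₂ z ∈ W₁
  affine : ∃ (A : Matrix (Fin r) (Fin r) ℝ) (b : Fin r → ℝ), IsUnit A.det ∧
    ∀ z ∈ W₂, e₁ (e₂.symm (baseP z)) = A.mulVec (baseP z) + b

end E214
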