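import Pool.Agent.Work.MP_e214ac_gt.M.Dat

/-!
# Module M/MGood: small adapted open sets exist

Proof.
* `exists_affine_nhd`: `hM` gives `A, b` with `e₁ q = A (e₂ q) + b` for `q` near `p`.  `A` is invertible:
  near `e₂ p` the map `y ↦ A y + b = e₁ (e₂.symm y)` is injective (restriction of a homeomorphism), so
  the linear map `A` is injective on a small ball around `0`, hence injective, hence `det A` is a
  unit.
* `exists_good`: `W = ` the set of `z ∈ W₀` with `baseP z` in a small open ball around `e' p`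
  (contained in `e'.target`, mapped by `e'.symm` into `α.O` and into the neighbourhood of `p` where
  `α.e q = A (e' q) + b`) and `|z_k| < α.ε` for the four last coordinates.
* `exists_trans`: similar; `kap e₁ e₂` is continuous at `pt (e₂ p) 0` with value `pt (e₁ p) 0`.
* `exists_good2`: apply `exists_good` twice, `Good.mono`.
-/

set_option autoImplicit false

open scoped ContDiff Topology

namespace E214

open TopologicalSpace

variable {r : ℕ} {M : Type} [TopologicalSpace M] [ChartedSpace (Fin r → ℝ) M]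
  {P : BivectorField r M} {n : ℕ} {F : List (ℝ × Diagram n)}

theorem exists_affine_nhd (hM : IsAffineManifold r M) (e₁ e₂ : OpenPartialHomeomorph M (Fin r → ℝ))
    (he₁ : e₁ ∈ atlas (Fin r → ℝ) M) (he₂ : e₂ ∈ atlas (Fin r → ℝ) M) (p : M)
    (hp₁ : p ∈ e₁.source) (hp₂ : p ∈ e₂.source) :
    ∃ (A : Matrix (Fin r) (Fin r) ℝ) (b : Fin r → ℝ), IsUnit A.det ∧
      ∀ᶠ y in 𝓝 (e₂ p), y ∈ e₂.target ∧ e₂.symm y ∈ e₁.source ∧
        e₁ (e₂.symm y) = A.mulVec y + b := by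
  obtain ⟨A, b, hAb⟩ := hM e₂ he₂ e₁ he₁ p ⟨hp₂, hp₁⟩
  obtain ⟨A', b', hAb'⟩ := hM e₁ he₁ e₂ he₂ p ⟨hp₁, hp₂⟩
  have hcont : Filter.Tendsto e₂.symm (𝓝 (e₂ p)) (𝓝 p) := by
    have h1 := e₂.continuousAt_symm (e₂.map_source hp₂)
    have h2 : Filter.Tendsto e₂.symm (𝓝 (e₂ p)) (𝓝 (e₂.symm (e₂ p))) := h1
    rwa [e₂.left_inv hp₂] at h2
  have ht : ∀ᶠ y in 𝓝 (e₂ p), y ∈ e₂.target :=
    e₂.open_target.mem_nhds (e₂.map_source hp₂)
  have hs : ∀ᶠ y in 𝓝 (e₂ p), e₂.symm y ∈ e₁.source :=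
    hcont.eventually (e₁.open_source.mem_nhds hp₁)
  have h1 := hcont.eventually hAb
  have h2 := hcont.eventually hAb'
  have h3 : ∀ᶠ y in 𝓝 (e₂ p), e₁ (e₂.symm y) = A.mulVec y + b := by
    filter_upwards [h1, ht] with y hy hyt
    rw [hy, e₂.right_inv hyt]
  refine ⟨A, b, ?_, ?_⟩
  · apply Matrix.isUnit_det_of_left_inverse (B := A')
    ext k a
    have h4 : ∀ᶠ y in 𝓝 (e₂ p), (fun y : Fin r → ℝ => y k) y
        = ((A' * A).mulVec y + (A'.mulVec b + b')) k := by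
      filter_upwards [h2, h3, ht] with y hy hy3 hyt
      rw [e₂.right_inv hyt, hy3] at hy
      have h5 := congrFun hy k
      change y k = _
      rw [h5, Matrix.mulVec_add, Matrix.mulVec_mulVec]
      simp only [Pi.add_apply]
      ring
    have h5 := mmor_pd_affine (A' * A) (A'.mulVec b + b') k a _ _ h4
    have h6 : ∀ᶠ y in 𝓝 (e₂ p), (fun y : Fin r → ℝ => y k) y
        = ((1 : Matrix (Fin r) (Fin r) ℝ).mulVec y + 0) k := by
      refine Filter.Eventually.of_forall fun y => ?_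
      rw [Matrix.one_mulVec, add_zero]
    have h7 := mmor_pd_affine 1 0 k a _ _ h6
    rw [← h5, h7]
  · filter_upwards [ht, hs, h3] with y h4 h5 h6 using ⟨h4, h5, h6⟩

theorem exists_good (hM : IsAffineManifold r M) (α : Loc P F)
    (e' : OpenPartialHomeomorph M (Fin r → ℝ)) (he' : e' ∈ atlas (Fin r → ℝ) M) (p : M)
    (hp : p ∈ α.O) (hp' : p ∈ e'.source) (W₀ : Opens (JJ r → ℝ)) (hW₀ : pt (e' p) 0 ∈ W₀) :
    ∃ W : Opens (JJ r → ℝ), W ≤ W₀ ∧ pt (e' p) 0 ∈ W ∧ Good α e' W := by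
  obtain ⟨A, b, hA, hev⟩ := exists_affine_nhd hM α.e e' α.he he' p (α.hOe hp) hp'
  have hcont : Filter.Tendsto e'.symm (𝓝 (e' p)) (𝓝 p) := by
    have h1 := e'.continuousAt_symm (e'.map_source hp')
    have h2 : Filter.Tendsto e'.symm (𝓝 (e' p)) (𝓝 (e'.symm (e' p))) := h1
    rwa [e'.left_inv hp'] at h2
  have hO : ∀ᶠ y in 𝓝 (e' p), e'.symm y ∈ α.O := hcont.eventually (α.hO.mem_nhds hp)
  obtain ⟨V, hV, hVo, hpV⟩ := eventually_nhds_iff.1 (hev.and hO)
  refine ⟨⟨(W₀ : Set (JJ r → ℝ)) ∩ (baseP ⁻¹' V ∩ ⋂ k : Fin 4, {z | |fibP z k| < α.ε}), ?_⟩,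
    fun z hz => hz.1, ?_, ?_⟩
  · refine W₀.isOpen.inter ((hVo.preimage contDiff_baseP.continuous).inter ?_)
    refine isOpen_iInter_of_finite fun k => ?_
    exact isOpen_lt (continuous_abs.comp (continuous_apply (Sum.inr k))) continuous_const
  · refine ⟨hW₀, hpV, Set.mem_iInter.2 fun k => ?_⟩
    change |(0 : ℝ)| < α.ε
    rw [abs_zero]
    exact α.hε
  · refine { target := fun z hz => (hV _ hz.2.1).1.1, mem := fun z hz => (hV _ hz.2.1).2,
             small := fun z hz k => Set.mem_iInter.1 hz.2.2 k,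
             affine := ⟨A, b, hA, fun z hz => (hV _ hz.2.1).1.2.2⟩ }

theorem exists_trans (hM : IsAffineManifold r M) (e₁ e₂ : OpenPartialHomeomorph M (Fin r → ℝ))
    (he₁ : e₁ ∈ atlas (Fin r → ℝ) M) (he₂ : e₂ ∈ atlas (Fin r → ℝ) M) (p : M)
    (hp₁ : p ∈ e₁.source) (hp₂ : p ∈ e₂.source) (W₁ : Opens (JJ r → ℝ)) (hW₁ : pt (e₁ p) 0 ∈ W₁)
    (W₀ : Opens (JJ r → ℝ)) (hW₀ : pt (e₂ p) 0 ∈ W₀) :
    ∃ W₂ : Opens (JJ r → ℝ), W₂ ≤ W₀ ∧ pt (e₂ p) 0 ∈ W₂ ∧ Trans e₁ e₂ W₁ W₂ := by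
  obtain ⟨A, b, hA, hev⟩ := exists_affine_nhd hM e₁ e₂ he₁ he₂ p hp₁ hp₂
  obtain ⟨V, hV, hVo, hpV⟩ := eventually_nhds_iff.1 hev
  have hκ : Continuous fun z : JJ r → ℝ => pt (A.mulVec (baseP z) + b) (fibP z) := by
    refine continuous_pi fun a => ?_
    rcases a with i | k
    · change Continuous fun z : JJ r → ℝ => (A.mulVec (baseP z) + b) i
      simp only [Matrix.mulVec, dotProduct, Pi.add_apply]
      refine Continuous.add (continuous_finset_sum _ fun c _ => ?_) continuous_const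
      exact continuous_const.mul (continuous_apply (Sum.inl c))
    · exact continuous_apply (Sum.inr k)
  refine ⟨⟨(W₀ : Set (JJ r → ℝ)) ∩ (baseP ⁻¹' V ∩
    (fun z : JJ r → ℝ => pt (A.mulVec (baseP z) + b) (fibP z)) ⁻¹' W₁), ?_⟩,
    fun z hz => hz.1, ?_, ?_⟩
  · exact W₀.isOpen.inter ((hVo.preimage contDiff_baseP.continuous).inter
      (W₁.isOpen.preimage hκ))
  · refine ⟨hW₀, hpV, ?_⟩
    change pt (A.mulVec (e₂ p) + b) 0 ∈ W₁
    rw [← (hV _ hpV).2.2, e₂.left_inv hp₂]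
    exact hW₁
  · refine { target := fun z hz => (hV _ hz.2.1).1, source := fun z hz => (hV _ hz.2.1).2.1,
             maps := fun z hz => ?_,
             affine := ⟨A, b, hA, fun z hz => (hV _ hz.2.1).2.2⟩ }
    unfold kap
    rw [(hV _ hz.2.1).2.2]
    exact hz.2.2

end E214
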