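import Pool.Agent.Work.MP_e214ac_gt.M.MNat
import Pool.Agent.Work.MP_e214ac_gt.M.MGood
import Pool.Agent.Work.MP_e214ac_gt.R.Pot
import Pool.Agent.Work.MP_e214ac_gt.S.CmpEx

/-!
# Module M/GEx: local existence of the comparison function

Proof.  Apply `exists_good` for `α` and then for `β` (`Good.mono`): an open set `W₁ ≤ W₀` containing
`q = pt (e' p) 0` which is good for both.  `exists_potential` for the Darboux coordinates of
`α.dat he' hα` and `β.dat he' hβ` on `W₁` gives `W ≤ W₁` with `q ∈ W` and `f ∈ Sm W`.  For `W` and `W₁`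
(same chart `e'`) the map `kap e' e'` is the identity (`Trans e' e' W₁ W`, with `A = 1`, `b = 0`), so
`exists_trans_hom` says that the data on `W` are the pull backs of the data on `W₁` along the
restriction `ρ`; by `pull_V`: `V_W (ρ h) = ρ (V_{W₁} h)`.  So
`(β-V_W) (ρ h) - (α-V_W) (ρ h) = {f, ρ h}` for `h ∈ Sm W₁`; in particular for `ρ h = x_a`; both sides are
vector fields in the argument (`Darb.isVF_V`, `isVF_ham`), so the equation holds for all elements of
`Sm W` (`isVF_ext`).  `isG_exists` gives `G`.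
-/

set_option autoImplicit false

open scoped ContDiff Topology

namespace E214

open TopologicalSpace

variable {r : ℕ} {M : Type} [TopologicalSpace M] [ChartedSpace (Fin r → ℝ) M]
  {P : BivectorField r M} {n : ℕ} {F : List (ℝ × Diagram n)}

theorem gex_kap (e' : OpenPartialHomeomorph M (Fin r → ℝ)) (z : JJ r → ℝ)
    (hz : baseP z ∈ e'.target) : kap e' e' z = z := by
  unfold kap
  rw [e'.right_inv hz, pt_base_fib]

/-- the restriction to a smaller open set -/
theorem gex_trans (e' : OpenPartialHomeomorph M (Fin r → ℝ)) (W₁ W : Opens (JJ r → ℝ))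
    (hW : W ≤ W₁) (ht : ∀ z ∈ W₁, baseP z ∈ e'.target) : Trans e' e' W₁ W where
  target z hz := ht z (hW hz)
  source z hz := e'.map_target (ht z (hW hz))
  maps z hz := by
    rw [gex_kap e' z (ht z (hW hz))]
    exact hW hz
  affine := by
    refine ⟨1, 0, by rw [Matrix.det_one]; exact isUnit_one, fun z hz => ?_⟩
    rw [e'.right_inv (ht z (hW hz)), Matrix.one_mulVec, add_zero]

private theorem gex_sum {W : Opens (JJ r → ℝ)} {ι : Type} (t : Finset ι) (g : ι → Sm W) (y : W) :
    (∑ i ∈ t, g i).1 y = ∑ i ∈ t, (g i).1 y := by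
  classical
  induction t using Finset.induction_on with
  | empty => rfl
  | insert a s ha ih =>
    rw [Finset.sum_insert ha, Finset.sum_insert ha, ← ih]
    rfl

theorem exists_G_local (hM : IsAffineManifold r M) (hn : 3 ≤ n) (α β : Loc P F)
    (e' : OpenPartialHomeomorph M (Fin r → ℝ)) (he' : e' ∈ atlas (Fin r → ℝ) M) (p : M)
    (hα : p ∈ α.O) (hβ : p ∈ β.O) (hp : p ∈ e'.source) (W₀ : Opens (JJ r → ℝ))
    (hW₀ : pt (e' p) 0 ∈ W₀) :
    ∃ (W : Opens (JJ r → ℝ)) (h₁ : Good α e' W) (h₂ : Good β e' W), W ≤ W₀ ∧ pt (e' p) 0 ∈ W ∧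
      ∃ G : Sm W, IsG (α.dat he' h₁) (β.dat he' h₂) G := by
  obtain ⟨Wa, hWa, hqa, hga⟩ := exists_good hM α e' he' p hα hp W₀ hW₀
  obtain ⟨W₁, hW₁, hq₁, hgb⟩ := exists_good hM β e' he' p hβ hp Wa hqa
  have h₁ : Good α e' W₁ := hga.mono hW₁
  obtain ⟨W, hW, f, hqW, hf⟩ := exists_potential W₁
    (fun a b => Sm.mk (Phat (P.comp e') a b) (Phat_smooth P e' he' W₁ h₁.target a b))
    (fun a b => Sm.ext fun z => Phat_anti P e' he' a b z (h₁.target z z.2))
    (α.dat he' h₁).toDarb (β.dat he' hgb).toDarb (pt (e' p) 0) hq₁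
  have ht : Trans e' e' W₁ W := gex_trans e' W₁ W hW h₁.target
  obtain ⟨ρ, hρe, hρaff, hρpull⟩ := exists_trans_hom (P := P) (F := F) e' e' he' he' W₁ W
    h₁.target (fun z hz => h₁.target z (hW hz)) ht
  have hg1 : Good α e' W := h₁.mono hW
  have hg2 : Good β e' W := hgb.mono hW
  have p1 := hρpull α h₁ hg1
  have p2 := hρpull β hgb hg2
  have hx : ∀ c, ρ (smx c) = smx c := by
    intro c
    apply Sm.ext
    intro z
    rw [hρe]
    change kap e' e' z c = (z : JJ r → ℝ) c
    rw [gex_kap e' z (h₁.target z (hW z.2))]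
  have hV : (β.dat he' hg2).V - (α.dat he' hg1).V
      = (locAff P e' he' W hg1.target).ham f := by
    refine (locAff P e' he' W hg1.target).isVF_ext
      ((locAff P e' he' W hg1.target).isVF_sub (β.dat he' hg2).isVF_V (α.dat he' hg1).isVF_V)
      ((locAff P e' he' W hg1.target).isVF_ham f) fun c => ?_
    rw [Derivation.sub_apply, AffP.ham_apply]
    change (β.dat he' hg2).V (smx c) - (α.dat he' hg1).V (smx c) = _
    rw [← hx c, pull_V p1, pull_V p2, ← map_sub]
    apply Sm.ext
    intro y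
    rw [hρe]
    have hk : (⟨kap e' e' y, ht.maps y y.2⟩ : W₁) = ⟨y, hW y.2⟩ :=
      Subtype.ext (gex_kap e' y (h₁.target y (hW y.2)))
    rw [hk]
    refine (hf y (smx c)).trans ?_
    change _ = (∑ a, ∑ b, (locAff P e' he' W hg1.target).P a b * smd a f * smd b (smx c) : Sm W).1 y
    rw [gex_sum]
    refine Finset.sum_congr rfl fun a _ => ?_
    rw [gex_sum]
    refine Finset.sum_congr rfl fun b _ => ?_
    rw [smd_smx, smd_smx]
    split_ifs <;> rfl
  obtain ⟨G, hG⟩ := isG_exists (α.dat he' hg1) (β.dat he' hg2) hn f fun h => by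
    rw [← Derivation.sub_apply, hV, AffP.ham_apply]
  exact ⟨W, hg1, hg2, fun z hz => hWa (hW₁ (hW hz)), hqW, G, hG⟩

end E214
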