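import Pool.Agent.Work.MP_e214ac_gt.M.GEx
import Pool.Agent.Work.MP_e214ac_gt.S.Cmp

/-!
# Module M/GFun: the comparison function on the manifold

`IsGFun α β g`: the function `g : M → ℝ` is given by the comparison functions in all charts.

Proof of `exists_gfun`.  For `p ∈ α.O ∩ β.O` choose a chart `e_p` of the atlas at `p`
(`chartAt`), `W_p`, `G_p` by `exists_G_local`, and put `g p = G_p (pt (e_p p) 0)`; `g = 0` elsewhere.
Let `(e', W, G)` be as in the definition, `pt y 0 ∈ W`, `p = e'.symm y`.  Then `p ∈ α.O ∩ β.O`.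
`exists_trans` gives `W₂ ≤ W` (chart `e'`) with `pt y 0 ∈ W₂` and `Trans e_p e' W_p W₂`.
`exists_trans_hom` for it and for `Trans e' e' W W₂` (restriction), and `isG_pull`: the images of
`G_p` and of `G` in `Sm W₂` are both comparison functions of `α.dat`, `β.dat` on `W₂`, so they are
equal by `isG_unique` (`Loc.dat_cas`).  Evaluate at `pt y 0`.
(`isG_pull` needs morphisms: `mor_of_affHom`.)
-/

set_option autoImplicit false

open scoped ContDiff Topology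

namespace E214

open TopologicalSpace

variable {r : ℕ} {M : Type} [TopologicalSpace M] [ChartedSpace (Fin r → ℝ) M]
  {P : BivectorField r M} {n : ℕ} {F : List (ℝ × Diagram n)}

/-- `g` is the comparison function of `α` and `β` -/
def IsGFun (α β : Loc P F) (g : M → ℝ) : Prop :=
  ∀ (e' : OpenPartialHomeomorph M (Fin r → ℝ)) (he' : e' ∈ atlas (Fin r → ℝ) M)
    (W : Opens (JJ r → ℝ)) (h₁ : Good α e' W) (h₂ : Good β e' W) (G : Sm W),
    IsG (α.dat he' h₁) (β.dat he' h₂) G → ∀ (y : Fin r → ℝ) (hy : pt y 0 ∈ W),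
      g (e'.symm y) = G.1 ⟨pt y 0, hy⟩

theorem exists_gfun (hM : IsAffineManifold r M) (hn : 3 ≤ n) (α β : Loc P F) :
    ∃ g : M → ℝ, IsGFun α β g := by
  have hv : ∀ p, ∃ v : ℝ, ∀ (_ : p ∈ α.O) (_ : p ∈ β.O),
      ∃ (W : Opens (JJ r → ℝ)) (h₁ : Good α (chartAt (Fin r → ℝ) p) W)
        (h₂ : Good β (chartAt (Fin r → ℝ) p) W) (hq : pt ((chartAt (Fin r → ℝ) p) p) 0 ∈ W)
        (G : Sm W), IsG (α.dat (chart_mem_atlas (Fin r → ℝ) p) h₁)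
          (β.dat (chart_mem_atlas (Fin r → ℝ) p) h₂) G ∧ v = G.1 ⟨_, hq⟩ := by
    intro p
    by_cases hp : p ∈ α.O ∧ p ∈ β.O
    · obtain ⟨W, h₁, h₂, _, hq, G, hG⟩ := exists_G_local hM hn α β (chartAt (Fin r → ℝ) p)
        (chart_mem_atlas (Fin r → ℝ) p) p hp.1 hp.2 (mem_chart_source (Fin r → ℝ) p) ⊤ trivial
      exact ⟨G.1 ⟨_, hq⟩, fun _ _ => ⟨W, h₁, h₂, hq, G, hG, rfl⟩⟩
    · exact ⟨0, fun h₁ h₂ => absurd ⟨h₁, h₂⟩ hp⟩
  choose g hg using hv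
  refine ⟨g, fun e' he' W h₁ h₂ G hG y hy => ?_⟩
  have hyt : y ∈ e'.target := h₁.target _ hy
  have hpα : e'.symm y ∈ α.O := h₁.mem _ hy
  have hpβ : e'.symm y ∈ β.O := h₂.mem _ hy
  have hps : e'.symm y ∈ e'.source := e'.map_target hyt
  obtain ⟨Wp, k₁, k₂, hq, Gp, hGp, hgv⟩ := hg (e'.symm y) hpα hpβ
  have hyW : pt (e' (e'.symm y)) 0 ∈ W := by rw [e'.right_inv hyt]; exact hy
  obtain ⟨W₂, hW₂, hq₂, ht⟩ := exists_trans hM (chartAt (Fin r → ℝ) (e'.symm y)) e'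
    (chart_mem_atlas (Fin r → ℝ) _) he' (e'.symm y) (mem_chart_source (Fin r → ℝ) _) hps Wp hq W
    hyW
  rw [e'.right_inv hyt] at hq₂
  have hW₂t : ∀ z ∈ W₂, baseP z ∈ e'.target := fun z hz => h₁.target z (hW₂ hz)
  obtain ⟨ρ₁, hρ₁e, hρ₁a, hρ₁p⟩ := exists_trans_hom (P := P) (F := F)
    (chartAt (Fin r → ℝ) (e'.symm y)) e' (chart_mem_atlas (Fin r → ℝ) _) he' Wp W₂ k₁.target
    hW₂t ht
  have ht' := gex_trans e' W W₂ hW₂ h₁.target
  obtain ⟨ρ₂, hρ₂e, hρ₂a, hρ₂p⟩ := exists_trans_hom (P := P) (F := F) e' e' he' he' W W₂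
    h₁.target hW₂t ht'
  have m₁ : Good α e' W₂ := h₁.mono hW₂
  have m₂ : Good β e' W₂ := h₂.mono hW₂
  have i₁ := isG_pull (mor_of_affHom hρ₁a F) (hρ₁p α k₁ m₁) (hρ₁p β k₂ m₂) hGp
  have i₂ := isG_pull (mor_of_affHom hρ₂a F) (hρ₂p α h₁ m₁) (hρ₂p β h₂ m₂) hG
  have heq := isG_unique _ _ hn (α.dat_cas he' m₁) _ _ i₁ i₂
  have hev := congrArg (fun u : Sm W₂ => u.1 ⟨pt y 0, hq₂⟩) heq
  rw [hρ₁e, hρ₂e] at hev
  rw [hgv]
  have e₁ : (⟨kap (chartAt (Fin r → ℝ) (e'.symm y)) e' (pt y 0), ht.maps _ hq₂⟩ : Wp)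
      = ⟨_, hq⟩ := Subtype.ext rfl
  have e₂ : (⟨kap e' e' (pt y 0), ht'.maps _ hq₂⟩ : W) = ⟨pt y 0, hy⟩ :=
    Subtype.ext (gex_kap e' _ hyt)
  rw [← e₁, ← e₂]
  exact hev

end E214
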