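import Pool.Agent.Work.MP_e214ac_gt.M.GFun
import Pool.Agent.Work.MP_e214ac_gt.S.CmpAdd

/-!
# Module M/GProp: smoothness and additivity of the comparison functions

Proof.
* `gfun_smooth`: at `y₀ ∈ e'.target` with `p = e'.symm y₀ ∈ α.O ∩ β.O` take `W`, `G` from
  `exists_G_local`.  For `y` near `y₀` `pt y 0 ∈ W`, so `g (e'.symm y) = G (pt y 0)`, a smooth function
  of `y` (`G.2` composed with the affine map `y ↦ pt y 0`).
* `gfun_add`: at `p` choose a chart `e'`, then `exists_G_local` three times with nested open sets (for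
  `α, β`; `β, γ`; `α, γ`), finally `W` = the smallest one.  Restrict all comparison functions to `W`
  (`exists_trans_hom` for `Trans e' e' _ W` with the identity, `isG_pull`).  `isG_trans` and
  `isG_unique` give `G_αγ = G_αβ + G_βγ` on `W`; evaluate at `pt (e' p) 0`.
-/

set_option autoImplicit false

open scoped ContDiff Topology

namespace E214

open TopologicalSpace

variable {r : ℕ} {M : Type} [TopologicalSpace M] [ChartedSpace (Fin r → ℝ) M]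
  {P : BivectorField r M} {n : ℕ} {F : List (ℝ × Diagram n)}

theorem gfun_smooth (hM : IsAffineManifold r M) (hn : 3 ≤ n) (α β : Loc P F) (g : M → ℝ)
    (hg : IsGFun α β g) (e' : OpenPartialHomeomorph M (Fin r → ℝ))
    (he' : e' ∈ atlas (Fin r → ℝ) M) :
    ContDiffOn ℝ ∞ (fun y => g (e'.symm y)) (e'.target ∩ e'.symm ⁻¹' (α.O ∩ β.O)) := by
  rintro y₀ ⟨hyt, hyO⟩
  have hps : e'.symm y₀ ∈ e'.source := e'.map_target hyt
  obtain ⟨W, h₁, h₂, _, hq, G, hG⟩ := exists_G_local hM hn α β e' he' (e'.symm y₀) hyO.1 hyO.2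
    hps ⊤ trivial
  rw [e'.right_inv hyt] at hq
  have hpt : ContDiff ℝ ∞ fun y : Fin r → ℝ => pt y (0 : Fin 4 → ℝ) := by
    refine contDiff_pi.2 fun a => ?_
    rcases a with i | k
    · exact contDiff_apply ℝ ℝ i
    · exact contDiff_const
  have h0 : ContDiffAt ℝ ∞ (ext0 W G.1) (pt y₀ 0) :=
    (Sm.contDiffOn G).contDiffAt (W.isOpen.mem_nhds hq)
  have h1 : ContDiffAt ℝ ∞ (fun y => ext0 W G.1 (pt y 0)) y₀ :=
    ContDiffAt.comp (g := ext0 W G.1) (f := fun y : Fin r → ℝ => pt y (0 : Fin 4 → ℝ)) y₀ h0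
      hpt.contDiffAt
  have h2 : (fun y => g (e'.symm y)) =ᶠ[𝓝 y₀] fun y => ext0 W G.1 (pt y 0) := by
    have h3 : ∀ᶠ y in 𝓝 y₀, pt y (0 : Fin 4 → ℝ) ∈ W :=
      (hpt.continuous.continuousAt).eventually_mem (W.isOpen.mem_nhds hq)
    filter_upwards [h3] with y hy
    rw [hg e' he' W h₁ h₂ G hG y hy, ext0_of_mem _ hy]
  exact (h1.congr_of_eventuallyEq h2).contDiffWithinAt

theorem gfun_add (hM : IsAffineManifold r M) (hn : 3 ≤ n) (α β γ : Loc P F) (g₁ g₂ g₃ : M → ℝ)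
    (h₁ : IsGFun α β g₁) (h₂ : IsGFun β γ g₂) (h₃ : IsGFun α γ g₃) (p : M) (hα : p ∈ α.O)
    (hβ : p ∈ β.O) (hγ : p ∈ γ.O) : g₁ p + g₂ p = g₃ p := by
  have he' := chart_mem_atlas (Fin r → ℝ) p
  have hps := mem_chart_source (Fin r → ℝ) p
  set e' := chartAt (Fin r → ℝ) p with he'd
  obtain ⟨W₁, a₁, b₁, _, hq₁, G₁, hG₁⟩ := exists_G_local hM hn α β e' he' p hα hβ hps ⊤ trivial
  obtain ⟨W₂, b₂, c₂, hW₂, hq₂, G₂, hG₂⟩ := exists_G_local hM hn β γ e' he' p hβ hγ hps W₁ hq₁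
  obtain ⟨W₃, a₃, c₃, hW₃, hq₃, G₃, hG₃⟩ := exists_G_local hM hn α γ e' he' p hα hγ hps W₂ hq₂
  have b₃ : Good β e' W₃ := b₂.mono hW₃
  have hW₁₃ : W₃ ≤ W₁ := fun z hz => hW₂ (hW₃ hz)
  obtain ⟨ρ₁, hρ₁e, hρ₁a, hρ₁p⟩ := exists_trans_hom (P := P) (F := F) e' e' he' he' W₁ W₃
    a₁.target a₃.target (gex_trans e' W₁ W₃ hW₁₃ a₁.target)
  obtain ⟨ρ₂, hρ₂e, hρ₂a, hρ₂p⟩ := exists_trans_hom (P := P) (F := F) e' e' he' he' W₂ W₃
    b₂.target a₃.target (gex_trans e' W₂ W₃ hW₃ b₂.target)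
  have i₁ := isG_pull (mor_of_affHom hρ₁a F) (hρ₁p α a₁ a₃) (hρ₁p β b₁ b₃) hG₁
  have i₂ := isG_pull (mor_of_affHom hρ₂a F) (hρ₂p β b₂ b₃) (hρ₂p γ c₂ c₃) hG₂
  have i₃ := isG_trans _ _ _ hn _ _ i₁ i₂
  have heq := isG_unique _ _ hn (α.dat_cas he' a₃) _ _ i₃ hG₃
  have hev := congrArg (fun u : Sm W₃ => u.1 ⟨pt (e' p) 0, hq₃⟩) heq
  have v₁ := h₁ e' he' W₃ a₃ b₃ (ρ₁ G₁) i₁ (e' p) hq₃
  have v₂ := h₂ e' he' W₃ b₃ c₃ (ρ₂ G₂) i₂ (e' p) hq₃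
  have v₃ := h₃ e' he' W₃ a₃ c₃ G₃ hG₃ (e' p) hq₃
  rw [e'.left_inv hps] at v₁ v₂ v₃
  rw [v₁, v₂, v₃, ← hev]
  rfl

end E214
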