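import Pool.Agent.Work.MP_e214ac_gt.M.Cech
import Pool.Agent.Work.MP_e214ac_gt.Sm

/-!
# Module M/Glue: gluing the local vector fields

Proof.
* `ham_schouten`: for a Poisson bivector `P` (smooth on the open set `U`) and a smooth function `f` on
  `U`, the vector field `Z_i = ∑_a P_ai ∂_a f` satisfies `schoutenVec P Z = 0` on `U`: expand; the terms
  with second derivatives of `f` are `∑ (P_lj P_ai + P_il P_aj) ∂_l ∂_a f`, which cancel by
  symmetry and skewness of `P`; the terms with first derivatives of `f` are the Jacobi identity.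
* `glue`: `cech` gives `h`.  On `O p ∩ O q` we have `X q - X p = ham (g p q)` and `h p = g p q + h q`, so
  `X p + ham (h p) = X p + ham (g p q) + ham (h q) = X q + ham (h q)`, where
  `(ham f)_i = ∑_a P_ai ∂_a f`.  So define, for a chart `e` of the atlas and `y ∈ e.target`, with
  `p = e.symm y`: `Z e i y = - (X p e i y + ∑_a P.comp e a i y * pd a (fun z => h p (e.symm z)) y)`; by
  the above this is equal to the same expression with any `q` such that `e.symm y ∈ O q` instead of
  `p` (both functions `h p ∘ e.symm`, `g p q ∘ e.symm + h q ∘ e.symm` agree near `y`).  Smoothness near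
  `y₀`: use the fixed `q = e.symm y₀` for all `y` near `y₀`.  Compatibility: `hXc` for the first part;
  for the second part the transformation rule of `P` (`P.compat`) and the chain rule.
  `schoutenVec P Z = - schoutenVec P (X p) - schoutenVec P (ham (h p)) = - schoutenVec P (X p)` near
  every point (`ham_schouten`, linearity of `schoutenVec` in the differentiable vector field).
-/

set_option autoImplicit false

open scoped ContDiff Topology

namespace E214

variable {r : ℕ} {M : Type} [TopologicalSpace M] [ChartedSpace (Fin r → ℝ) M]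

private theorem gl_comm {J : Type} [Fintype J] [DecidableEq J] (U : Set (J → ℝ)) (hU : IsOpen U)
    (f : (J → ℝ) → ℝ) (hf : ContDiffOn ℝ ∞ f U) (y : J → ℝ) (hy : y ∈ U) (l a : J) :
    pd l (pd a f) y = pd a (pd l f) y := by
  obtain ⟨W, hW⟩ : ∃ W : TopologicalSpace.Opens (J → ℝ), (W : Set (J → ℝ)) = U := ⟨⟨U, hU⟩, rfl⟩
  subst hW
  have key : ∀ b c : J, (Sm.dir (Pi.single b 1) (Sm.dir (Pi.single c 1) (Sm.mk f hf))).1 ⟨y, hy⟩
      = pd b (pd c f) y := by
    intro b c
    rw [Sm.dir_apply]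
    change _ = fderiv ℝ (pd c f) y (Pi.single b 1)
    rw [fderiv_congr_on (W := W) (G := pd c f) (fun z hz => by
      rw [ext0_of_mem _ hz, Sm.dir_mk]
      rfl) hy]
  rw [← key, ← key, Sm.dir_comm]

private theorem gl_pd_add {J : Type} [Fintype J] [DecidableEq J] (l : J) (u v : (J → ℝ) → ℝ)
    (y : J → ℝ) (hu : DifferentiableAt ℝ u y) (hv : DifferentiableAt ℝ v y) :
    pd l (fun y => u y + v y) y = pd l u y + pd l v y := by
  have h1 := hu.hasFDerivAt.add hv.hasFDerivAt
  change fderiv ℝ (u + v) y (Pi.single l 1) = _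
  rw [h1.fderiv]
  rfl

private theorem gl_pd_neg {J : Type} [Fintype J] [DecidableEq J] (l : J) (u : (J → ℝ) → ℝ)
    (y : J → ℝ) : pd l (fun y => - u y) y = - pd l u y := by
  change fderiv ℝ (-u) y (Pi.single l 1) = _
  rw [fderiv_neg]
  rfl

private theorem gl_pd_sum_mul {J : Type} [Fintype J] [DecidableEq J] (l : J)
    (u v : J → (J → ℝ) → ℝ) (y : J → ℝ) (hu : ∀ a, DifferentiableAt ℝ (u a) y)
    (hv : ∀ a, DifferentiableAt ℝ (v a) y) :
    pd l (fun y => ∑ a, u a y * v a y) y = ∑ a, (pd l (u a) y * v a y + u a y * pd l (v a) y) := by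
  have h1 : HasFDerivAt (fun y => ∑ a, u a y * v a y)
      (∑ a, (u a y • fderiv ℝ (v a) y + v a y • fderiv ℝ (u a) y)) y :=
    HasFDerivAt.fun_sum fun a _ => (hu a).hasFDerivAt.mul (hv a).hasFDerivAt
  change fderiv ℝ (fun y => ∑ a, u a y * v a y) y (Pi.single l 1) = _
  rw [h1.fderiv, sum_apply]
  refine Finset.sum_congr rfl fun a _ => ?_
  change u a y * pd l (v a) y + v a y * pd l (u a) y = _
  ring

theorem ham_schouten {J : Type} [Fintype J] [DecidableEq J] (P : J → J → (J → ℝ) → ℝ)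
    (U : Set (J → ℝ)) (hU : IsOpen U) (hP : IsPoissonOn P U) (f : (J → ℝ) → ℝ)
    (hf : ContDiffOn ℝ ∞ f U) (i j : J) (y : J → ℝ) (hy : y ∈ U) :
    schoutenVec P (fun i y => ∑ a, P a i y * pd a f y) i j y = 0 := by
  have hdP : ∀ a b, DifferentiableAt ℝ (P a b) y := fun a b =>
    ((hP.1 a b).contDiffAt (hU.mem_nhds hy)).differentiableAt (by simp)
  have hdf : ∀ a, DifferentiableAt ℝ (pd a f) y := fun a =>
    ((contDiffOn_fderiv_apply (W := ⟨U, hU⟩) hf (Pi.single a 1)).contDiffAt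
      (hU.mem_nhds hy)).differentiableAt (by simp)
  have hskew : ∀ l a b, pd l (P a b) y = - pd l (P b a) y := by
    intro l a b
    rw [← gl_pd_neg]
    change fderiv ℝ _ _ _ = fderiv ℝ _ _ _
    rw [fderiv_congr_on (W := ⟨U, hU⟩) (G := fun y => - P b a y)
      (fun z hz => hP.2.1 a b z hz) hy]
  have hjac : ∀ a, ∑ l, (P l a y * pd l (P i j) y + P l i y * pd l (P j a) y
      + P l j y * pd l (P a i) y) = 0 := by
    intro a
    have h1 := hP.2.2 i j a y hy
    simp only [schouten, Finset.sum_apply, Pi.add_apply, Pi.mul_apply] at h1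
    have h2 : ∑ l, (P l a y * pd l (P i j) y + P l i y * pd l (P j a) y
      + P l j y * pd l (P a i) y) + ∑ l, (P l a y * pd l (P i j) y + P l i y * pd l (P j a) y
      + P l j y * pd l (P a i) y) = 0 := by
      rw [← Finset.sum_add_distrib, ← h1]
      exact Finset.sum_congr rfl fun l _ => by ring
    linarith
  simp only [schoutenVec, Finset.sum_apply, Pi.sub_apply, Pi.add_apply, Pi.mul_apply]
  have h3 : ∀ l b, pd l (fun y => ∑ a, P a b y * pd a f y) y
      = ∑ a, (pd l (P a b) y * pd a f y + P a b y * pd l (pd a f) y) := fun l b =>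
    gl_pd_sum_mul l (fun a => P a b) (fun a => pd a f) y (fun a => hdP a b) hdf
  simp only [h3]
  have h4 : ∑ l, ∑ a, (P l j y * P a i y + P i l y * P a j y) * pd l (pd a f) y = 0 := by
    have h5 : ∑ l, ∑ a, P l j y * P a i y * pd l (pd a f) y
        = ∑ l, ∑ a, P l i y * P a j y * pd l (pd a f) y := by
      rw [Finset.sum_comm]
      refine Finset.sum_congr rfl fun l _ => Finset.sum_congr rfl fun a _ => ?_
      rw [gl_comm U hU f hf y hy a l]
      ring
    simp only [add_mul, Finset.sum_add_distrib]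
    rw [h5, ← Finset.sum_add_distrib]
    refine Finset.sum_eq_zero fun l _ => ?_
    rw [← Finset.sum_add_distrib]
    refine Finset.sum_eq_zero fun a _ => ?_
    rw [hP.2.1 i l y hy]
    ring
  have h6 : ∑ a, pd a f y * ∑ l, (P l a y * pd l (P i j) y + P l i y * pd l (P j a) y
      + P l j y * pd l (P a i) y) = 0 := by
    simp only [hjac, mul_zero, Finset.sum_const_zero]
  simp only [Finset.mul_sum] at h6
  rw [Finset.sum_comm] at h6
  rw [← add_zero (0 : ℝ)]
  nth_rewrite 1 [← h4]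
  rw [← h6, ← Finset.sum_add_distrib]
  refine Finset.sum_congr rfl fun l _ => ?_
  rw [Finset.mul_sum, Finset.mul_sum, Finset.sum_mul, ← Finset.sum_add_distrib,
    ← Finset.sum_sub_distrib, ← Finset.sum_add_distrib]
  refine Finset.sum_congr rfl fun a _ => ?_
  rw [hP.2.1 a l y hy, hP.2.1 i l y hy, hskew l a j]
  ring

private theorem gl_smOn_at (f : M → ℝ) (U : Set M) (hU : IsOpen U) (hf : SmOn r f U)
    (e : OpenPartialHomeomorph M (Fin r → ℝ)) (he : e ∈ atlas (Fin r → ℝ) M) (y : Fin r → ℝ)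
    (hy : y ∈ e.target) (hyU : e.symm y ∈ U) :
    DifferentiableAt ℝ (fun z => f (e.symm z)) y :=
  ((hf e he).contDiffAt ((e.isOpen_inter_preimage_symm hU).mem_nhds ⟨hy, hyU⟩)).differentiableAt
    (by simp)

/-- chain rule for a change of charts -/
private theorem gl_comp (u : (Fin r → ℝ) → ℝ) (κ : (Fin r → ℝ) → (Fin r → ℝ)) (y : Fin r → ℝ)
    (hu : DifferentiableAt ℝ u (κ y)) (hκ : DifferentiableAt ℝ κ y) (c : Fin r) :
    pd c (fun z => u (κ z)) y = ∑ b, pd b u (κ y) * pd c (fun z => κ z b) y := by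
  have h1 := hu.hasFDerivAt.comp y hκ.hasFDerivAt
  change fderiv ℝ (u ∘ κ) y (Pi.single c 1) = _
  rw [h1.fderiv]
  change fderiv ℝ u (κ y) (fderiv ℝ κ y (Pi.single c 1)) = _
  have h6 : ∀ b, fderiv ℝ κ y (Pi.single c 1) b = pd c (fun z => κ z b) y := by
    intro b
    have h7 := hasFDerivAt_pi'.1 hκ.hasFDerivAt b
    change _ = fderiv ℝ (fun z => κ z b) y (Pi.single c 1)
    rw [h7.fderiv]
    rfl
  obtain ⟨v, hv⟩ : ∃ v, v = fderiv ℝ κ y (Pi.single c 1) := ⟨_, rfl⟩
  rw [← hv] at h6 ⊢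
  have h8 : v = ∑ b, v b • (Pi.single b 1 : Fin r → ℝ) := by
    funext a
    simp [Finset.sum_apply, Pi.single_apply]
  rw [h8, map_sum]
  refine Finset.sum_congr rfl fun b _ => ?_
  rw [map_smul, smul_eq_mul, h6 b, mul_comm]
  rfl

/-- chain rule for a change of charts -/
private theorem gl_chain (hM : IsAffineManifold r M) (f : M → ℝ)
    (e e' : OpenPartialHomeomorph M (Fin r → ℝ)) (he : e ∈ atlas (Fin r → ℝ) M)
    (he' : e' ∈ atlas (Fin r → ℝ) M) (x : M) (hx : x ∈ e.source) (hx' : x ∈ e'.source)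
    (hf : DifferentiableAt ℝ (fun z => f (e'.symm z)) (e' x)) (c : Fin r) :
    pd c (fun z => f (e.symm z)) (e x) = ∑ b, pd b (fun z => f (e'.symm z)) (e' x) *
      pd c (fun z => e' (e.symm z) b) (e x) := by
  obtain ⟨A, b₀, hA⟩ := hM e he e' he' x ⟨hx, hx'⟩
  have hcont : Filter.Tendsto e.symm (𝓝 (e x)) (𝓝 x) := by
    have h1 := e.continuousAt_symm (e.map_source hx)
    have h2 : Filter.Tendsto e.symm (𝓝 (e x)) (𝓝 (e.symm (e x))) := h1
    rwa [e.left_inv hx] at h2
  have ht : ∀ᶠ z in 𝓝 (e x), z ∈ e.target := e.open_target.mem_nhds (e.map_source hx)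
  have h1 : ∀ᶠ z in 𝓝 (e x), e' (e.symm z) = A.mulVec z + b₀ := by
    filter_upwards [hcont.eventually hA, ht] with z hz hz2
    rw [hz, e.right_inv hz2]
  have h2 : ∀ᶠ z in 𝓝 (e x), e.symm z ∈ e'.source :=
    hcont.eventually (e'.open_source.mem_nhds hx')
  have hκ : DifferentiableAt ℝ (fun z => e' (e.symm z)) (e x) := by
    have h3 : DifferentiableAt ℝ (fun z : Fin r → ℝ => A.mulVec z + b₀) (e x) := by
      have h4 : DifferentiableAt ℝ (fun z : Fin r → ℝ => A.mulVec z) (e x) :=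
        (Matrix.mulVecLin A).toContinuousLinearMap.differentiableAt
      exact h4.add_const b₀
    exact h3.congr_of_eventuallyEq h1
  have hex : e' (e.symm (e x)) = e' x := by rw [e.left_inv hx]
  have h5 : (fun z => f (e.symm z)) =ᶠ[𝓝 (e x)] fun z => f (e'.symm (e' (e.symm z))) := by
    filter_upwards [h2] with z hz
    rw [e'.left_inv hz]
  have h9 := gl_comp (fun z => f (e'.symm z)) (fun z => e' (e.symm z)) (e x)
    (by simpa only [hex] using hf) hκ c
  simp only [hex] at h9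
  rw [← h9]
  change fderiv ℝ _ _ _ = fderiv ℝ _ _ _
  rw [h5.fderiv_eq]

theorem glue [T2Space M] [SigmaCompactSpace M] (hM : IsAffineManifold r M) (P : BivectorField r M)
    (hP : P.IsPoisson) (O : M → Set M)
    (hO : ∀ p, IsOpen (O p)) (hmem : ∀ p, p ∈ O p)
    (X : M → OpenPartialHomeomorph M (Fin r → ℝ) → Fin r → (Fin r → ℝ) → ℝ)
    (hXs : ∀ p, ∀ e ∈ atlas (Fin r → ℝ) M, ∀ i,
      ContDiffOn ℝ ∞ (X p e i) (e.target ∩ e.symm ⁻¹' O p))
    (hXc : ∀ p, ∀ e₁ ∈ atlas (Fin r → ℝ) M, ∀ e₂ ∈ atlas (Fin r → ℝ) M,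
      ∀ x ∈ e₁.source ∩ e₂.source, x ∈ O p → ∀ i,
        X p e₁ i (e₁ x) = ∑ a, pd a (fun z => e₁ (e₂.symm z) i) (e₂ x) * X p e₂ a (e₂ x))
    (g : M → M → M → ℝ) (hgs : ∀ p q, SmOn r (g p q) (O p ∩ O q))
    (hga : ∀ p q s x, x ∈ O p → x ∈ O q → x ∈ O s → g p q x + g q s x = g p s x)
    (hgX : ∀ p q, ∀ e ∈ atlas (Fin r → ℝ) M, ∀ i, ∀ y ∈ e.target, e.symm y ∈ O p →
      e.symm y ∈ O q → X q e i y - X p e i y
        = ∑ a, P.comp e a i y * pd a (fun z => g p q (e.symm z)) y) :
    ∃ Z : VectorField r M, ∀ p, ∀ e ∈ atlas (Fin r → ℝ) M, ∀ i j, ∀ y ∈ e.target,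
      e.symm y ∈ O p → schoutenVec (P.comp e) (Z.comp e) i j y
        = - schoutenVec (P.comp e) (X p e) i j y := by
  obtain ⟨h, hh, hgh⟩ := cech hM O hO hmem g hgs hga
  obtain ⟨Z, hZ⟩ : ∃ Z : OpenPartialHomeomorph M (Fin r → ℝ) → Fin r → (Fin r → ℝ) → ℝ,
      ∀ e i y, Z e i y = -(X (e.symm y) e i y
        + ∑ a, P.comp e a i y * pd a (fun z => h (e.symm y) (e.symm z)) y) :=
    ⟨fun e i y => _, fun _ _ _ => rfl⟩
  have hV : ∀ q, ∀ e : OpenPartialHomeomorph M (Fin r → ℝ),
      IsOpen (e.target ∩ e.symm ⁻¹' O q) := fun q e => e.isOpen_inter_preimage_symm (hO q)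
  -- independence of the choice
  have key : ∀ q, ∀ e ∈ atlas (Fin r → ℝ) M, ∀ i, ∀ y ∈ e.target, e.symm y ∈ O q →
      Z e i y = -(X q e i y + ∑ a, P.comp e a i y * pd a (fun z => h q (e.symm z)) y) := by
    intro q e he i y hy hq
    rw [hZ]
    have hp := hmem (e.symm y)
    obtain ⟨p, hpdef⟩ : ∃ p, p = e.symm y := ⟨_, rfl⟩
    rw [← hpdef] at hp ⊢
    have hp' : e.symm y ∈ O p := by rw [← hpdef]; exact hp
    have h1 := hgX p q e he i y hy hp' hq
    have hev : (fun z => h p (e.symm z)) =ᶠ[𝓝 y]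
        fun z => g p q (e.symm z) + h q (e.symm z) := by
      filter_upwards [(hV p e).mem_nhds ⟨hy, hp'⟩, (hV q e).mem_nhds ⟨hy, hq⟩] with z hz hz'
      exact hgh p q _ hz.2 hz'.2
    have h2 : ∀ a, pd a (fun z => h p (e.symm z)) y
        = pd a (fun z => g p q (e.symm z)) y + pd a (fun z => h q (e.symm z)) y := by
      intro a
      rw [← gl_pd_add a _ _ y
        (gl_smOn_at (g p q) (O p ∩ O q) ((hO p).inter (hO q)) (hgs p q) e he y hy ⟨hp', hq⟩)
        (gl_smOn_at (h q) (O q) (hO q) (hh q) e he y hy hq)]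
      change fderiv ℝ _ _ _ = fderiv ℝ _ _ _
      rw [hev.fderiv_eq]
    simp only [h2, mul_add, Finset.sum_add_distrib]
    rw [← h1]
    ring
  have hH : ∀ q, ∀ e ∈ atlas (Fin r → ℝ) M, ∀ i, ContDiffOn ℝ ∞
      (fun y => ∑ a, P.comp e a i y * pd a (fun z => h q (e.symm z)) y)
      (e.target ∩ e.symm ⁻¹' O q) := by
    intro q e he i
    refine ContDiffOn.sum fun a _ => ?_
    exact ((P.smooth e he a i).mono Set.inter_subset_left).mul
      (contDiffOn_fderiv_apply (W := ⟨_, hV q e⟩) (hh q e he) (Pi.single a 1))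
  refine ⟨⟨Z, ?_, ?_⟩, ?_⟩
  · intro e he i y hy
    have h1 : ContDiffOn ℝ ∞ (Z e i) (e.target ∩ e.symm ⁻¹' O (e.symm y)) :=
      ((hXs (e.symm y) e he i).add (hH (e.symm y) e he i)).neg.congr fun z hz =>
        key (e.symm y) e he i z hz.1 hz.2
    exact ((h1.contDiffAt ((hV (e.symm y) e).mem_nhds ⟨hy, hmem _⟩))).contDiffWithinAt
  · intro e he e' he' x hx i
    have h1 : e.symm (e x) = x := e.left_inv hx.1
    have h2 : e'.symm (e' x) = x := e'.left_inv hx.2
    have hxt : e x ∈ e.target := e.map_source hx.1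
    have hxt' : e' x ∈ e'.target := e'.map_source hx.2
    have hO1 : e.symm (e x) ∈ O x := by rw [h1]; exact hmem x
    have hO2 : e'.symm (e' x) ∈ O x := by rw [h2]; exact hmem x
    rw [key x e' he' i (e' x) hxt' hO2]
    have h3 : ∀ a, Z e a (e x) = _ := fun a => key x e he a (e x) hxt hO1
    simp only [h3]
    rw [hXc x e' he' e he x ⟨hx.2, hx.1⟩ (hmem x) i]
    have h4 : ∀ b, P.comp e' b i (e' x) = _ := fun b => P.compat e he e' he' x hx b i
    have h5 : ∀ c, pd c (fun z => h x (e.symm z)) (e x) = _ := fun c =>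
      gl_chain hM (h x) e e' he he' x hx.1 hx.2
        (gl_smOn_at (h x) (O x) (hO x) (hh x) e' he' (e' x) hxt' hO2) c
    simp only [h4, h5, mul_neg, mul_add, Finset.sum_neg_distrib, Finset.sum_add_distrib,
      Finset.mul_sum, Finset.sum_mul]
    congr 2
    rw [Finset.sum_comm]
    calc ∑ c, ∑ b, ∑ d, pd c (fun z => e' (e.symm z) b) (e x) *
          pd d (fun z => e' (e.symm z) i) (e x) * P.comp e c d (e x) *
          pd b (fun z => h x (e'.symm z)) (e' x)
        = ∑ c, ∑ d, ∑ b, pd c (fun z => e' (e.symm z) b) (e x) *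
          pd d (fun z => e' (e.symm z) i) (e x) * P.comp e c d (e x) *
          pd b (fun z => h x (e'.symm z)) (e' x) :=
          Finset.sum_congr rfl fun c _ => Finset.sum_comm
      _ = ∑ d, ∑ c, ∑ b, pd c (fun z => e' (e.symm z) b) (e x) *
          pd d (fun z => e' (e.symm z) i) (e x) * P.comp e c d (e x) *
          pd b (fun z => h x (e'.symm z)) (e' x) := Finset.sum_comm
      _ = _ := Finset.sum_congr rfl fun d _ => Finset.sum_congr rfl fun c _ =>
          Finset.sum_congr rfl fun b _ => by ring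
  · intro q e he i j y hy hq
    change schoutenVec (P.comp e) (Z e) i j y = _
    have hdX : ∀ b, DifferentiableAt ℝ (X q e b) y := fun b =>
      ((hXs q e he b).contDiffAt ((hV q e).mem_nhds ⟨hy, hq⟩)).differentiableAt (by simp)
    have hdH : ∀ b, DifferentiableAt ℝ
        (fun y => ∑ a, P.comp e a b y * pd a (fun z => h q (e.symm z)) y) y := fun b =>
      ((hH q e he b).contDiffAt ((hV q e).mem_nhds ⟨hy, hq⟩)).differentiableAt (by simp)
    have h1 : ∀ l b, pd l (Z e b) y = -(pd l (X q e b) y + pd l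
        (fun y => ∑ a, P.comp e a b y * pd a (fun z => h q (e.symm z)) y) y) := by
      intro l b
      rw [← gl_pd_add l _ _ y (hdX b) (hdH b), ← gl_pd_neg]
      change fderiv ℝ _ _ _ = fderiv ℝ _ _ _
      have hev : Z e b =ᶠ[𝓝 y] fun y => -(X q e b y
          + ∑ a, P.comp e a b y * pd a (fun z => h q (e.symm z)) y) := by
        filter_upwards [(hV q e).mem_nhds ⟨hy, hq⟩] with z hz
        exact key q e he b z hz.1 hz.2
      rw [hev.fderiv_eq]
    have hPo : IsPoissonOn (P.comp e) (e.target ∩ e.symm ⁻¹' O q) :=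
      ⟨fun a b => (P.smooth e he a b).mono Set.inter_subset_left,
        fun a b z hz => P.anti e he a b z hz.1, fun a b c z hz => hP e he a b c z hz.1⟩
    have h2 := ham_schouten (P.comp e) _ (hV q e) hPo (fun z => h q (e.symm z)) (hh q e he)
      i j y ⟨hy, hq⟩
    rw [← sub_zero (- schoutenVec (P.comp e) (X q e) i j y), ← h2]
    simp only [schoutenVec, Finset.sum_apply, Pi.sub_apply, Pi.add_apply, Pi.mul_apply, h1]
    rw [← Finset.sum_neg_distrib, ← Finset.sum_sub_distrib]
    refine Finset.sum_congr rfl fun l _ => ?_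
    rw [key q e he l y hy hq]
    ring

end E214
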