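import Pool.Agent.Work.MP_e214ac_gt.MDefs
import Pool.Agent.Work.MP_e214ac_gt.G.Stab

/-!
# Module M/QBase: `Q(P ⊕ P₀₀)` in the directions of `M` is `Q(P)`

Proof.  Let `S = locAff P e he W hW`.
1. `evalHom_stab` with `k = Sum.inl : Fin r → JJ r`, the ring `Sm W`, `d a = smd a`,
   `Z = {f | ∀ k, smd (Sum.inr k) f = 0}`: stable under all `smd a` (`Sm.dir_comm`); contains the
   components of `P ⊕ P₀₀` (they do not depend on the last four coordinates: near every point of `W`
   they are `z ↦ P.comp e i j (baseP z)`, whose derivative in the direction `Pi.single (Sum.inr k) 1`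
   is zero by the chain rule, or constants); indices outside the range of `inl` are of the form
   `inr k`.  So `S.Qc F (inl i) (inl j) = evalHom F (fun a => smd (inl a)) (fun a b => S.P (inl a) (inl b)) i j`.
2. `evalHom_rel` with `R = Sm W`, `R' = (Fin r → ℝ) → ℝ` and the relation
   `rel f f' : ContDiffOn ℝ ∞ f' U ∧ ∀ y (hy : y ∈ U), f' y = f.1 ⟨pt y 0, hy⟩`, where
   `U = {y | pt y 0 ∈ W}` (open).  If `rel f f'` then `rel (smd (inl a) f) (pd a f')`: on `U`
   `f' = ext0 W f ∘ (y ↦ pt y 0)`, the derivative of `y ↦ pt y 0` maps `e_a` to `Pi.single (inl a) 1`.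
   `rel (S.P (inl a) (inl b)) (P.comp e a b)` holds because `baseP (pt y 0) = y`; smoothness on `U`:
   `P.smooth` and `hW`.
-/

set_option autoImplicit false

open scoped ContDiff Topology

namespace E214

open TopologicalSpace

variable {r : ℕ} {M : Type} [TopologicalSpace M] [ChartedSpace (Fin r → ℝ) M]
  {n : ℕ}

private theorem qbase_zero (P : BivectorField r M) (e : OpenPartialHomeomorph M (Fin r → ℝ))
    (a b : JJ r) (k : Fin 4) (x : JJ r → ℝ) :
    fderiv ℝ (Phat (P.comp e) a b) x (Pi.single (Sum.inr k) 1) = 0 := by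
  by_cases hd : DifferentiableAt ℝ (Phat (P.comp e) a b) x
  · rw [← hd.lineDeriv_eq_fderiv]
    unfold lineDeriv
    have h1 : (fun t : ℝ => Phat (P.comp e) a b (x + t • (Pi.single (Sum.inr k) 1 : JJ r → ℝ)))
        = fun _ => Phat (P.comp e) a b x := by
      funext t
      have h2 : baseP (x + t • (Pi.single (Sum.inr k) 1 : JJ r → ℝ)) = baseP x := by
        funext i
        change x (Sum.inl i) + t • (Pi.single (Sum.inr k) 1 : JJ r → ℝ) (Sum.inl i)
          = x (Sum.inl i)
        simp [Pi.single_apply]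
      rcases a with a | a <;> rcases b with b | b
      · change P.comp e a b (baseP _) = P.comp e a b (baseP x)
        rw [h2]
      · rfl
      · rfl
      · rfl
    rw [h1, deriv_const]
  · rw [fderiv_zero_of_not_differentiableAt hd]
    rfl

private def qbase_lin : (Fin r → ℝ) →L[ℝ] (JJ r → ℝ) :=
  ContinuousLinearMap.pi (Sum.elim (fun i => ContinuousLinearMap.proj i) fun _ => 0)

theorem Qc_base (P : BivectorField r M) (F : List (ℝ × Diagram n))
    (e : OpenPartialHomeomorph M (Fin r → ℝ)) (he : e ∈ atlas (Fin r → ℝ) M)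
    (W : Opens (JJ r → ℝ)) (hW : ∀ z ∈ W, baseP z ∈ e.target) (i j : Fin r) (y : Fin r → ℝ)
    (hy : pt y 0 ∈ W) :
    ((locAff P e he W hW).Qc F (Sum.inl i) (Sum.inl j)).1 ⟨pt y 0, hy⟩
      = evalHom F pd (P.comp e) i j y := by
  set S := locAff P e he W hW with hS
  have h1 : S.Qc F (Sum.inl i) (Sum.inl j)
      = evalHom F (fun a f => smd (Sum.inl a) f) (fun a b => S.P (Sum.inl a) (Sum.inl b)) i j := by
    refine evalHom_stab (Sum.inl : Fin r → JJ r) Sum.inl_injective F (fun a f => smd a f)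
      (fun a => map_zero _) S.P {f | ∀ k : Fin 4, smd (Sum.inr k) f = 0} (fun a b => ?_)
      (fun a f hf k => ?_) (fun c hc f hf => ?_) i j
    · intro k
      apply Sm.ext
      intro x
      exact (Sm.dir_mk (Pi.single (Sum.inr k) 1) (Phat (P.comp e) a b)
        (Phat_smooth P e he W hW a b) x).trans (qbase_zero P e a b k x)
    · change smd (Sum.inr k) (smd a f) = 0
      have h2 : smd (Sum.inr k) (smd a f) = smd a (smd (Sum.inr k) f) := Sm.dir_comm _ _ f
      rw [h2, hf k, map_zero]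
    · rcases c with c | c
      · exact absurd ⟨c, rfl⟩ hc
      · exact hf c
  rw [h1]
  have hpt : ∀ y : Fin r → ℝ, HasFDerivAt (fun y : Fin r → ℝ => pt y (0 : Fin 4 → ℝ))
      (qbase_lin : (Fin r → ℝ) →L[ℝ] (JJ r → ℝ)) y := by
    intro y
    have h2 : (fun y : Fin r → ℝ => pt y (0 : Fin 4 → ℝ))
        = (qbase_lin : (Fin r → ℝ) →L[ℝ] (JJ r → ℝ)) := by
      funext y a
      rcases a with a | a <;> rfl
    rw [h2]
    exact (qbase_lin : (Fin r → ℝ) →L[ℝ] (JJ r → ℝ)).hasFDerivAt
  have hcont : Continuous fun y : Fin r → ℝ => pt y (0 : Fin 4 → ℝ) :=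
    continuous_iff_continuousAt.2 fun y => (hpt y).continuousAt
  set U : Opens (Fin r → ℝ) := ⟨(fun y => pt y (0 : Fin 4 → ℝ)) ⁻¹' W, W.isOpen.preimage hcont⟩
    with hU
  have hrel := evalHom_rel (R := Sm W) (R' := (Fin r → ℝ) → ℝ)
    (fun f f' => ContDiffOn ℝ ∞ f' U ∧ ∀ (y : Fin r → ℝ) (hy : pt y 0 ∈ W),
      f' y = f.1 ⟨pt y 0, hy⟩)
    ⟨contDiffOn_const, fun y hy => rfl⟩ ⟨contDiffOn_const, fun y hy => rfl⟩
    (fun f f' g g' hf hg => ⟨hf.1.add hg.1, fun y hy => by
      change f' y + g' y = f.1 _ + g.1 _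
      rw [hf.2 y hy, hg.2 y hy]⟩)
    (fun f f' g g' hf hg => ⟨hf.1.mul hg.1, fun y hy => by
      change f' y * g' y = f.1 _ * g.1 _
      rw [hf.2 y hy, hg.2 y hy]⟩)
    (fun c f f' hf => ⟨hf.1.const_smul c, fun y hy => by
      change c • f' y = c • f.1 _
      rw [hf.2 y hy]⟩)
    (fun a f => smd (Sum.inl a) f) pd
    (fun a f f' hf => ⟨contDiffOn_fderiv_apply hf.1 _, fun y hy => by
      have h2 : fderiv ℝ f' y = fderiv ℝ (ext0 W f.1 ∘ fun y => pt y (0 : Fin 4 → ℝ)) y :=
        fderiv_congr_on (W := U) (fun z hz => by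
          rw [hf.2 z hz, Function.comp_apply]
          exact (ext0_of_mem f.1 (show pt z 0 ∈ W from hz)).symm) hy
      have h3 : HasFDerivAt (ext0 W f.1) (fderiv ℝ (ext0 W f.1) (pt y 0)) (pt y 0) :=
        (Sm.differentiableAt f hy).hasFDerivAt
      have h4 := (h3.comp y (hpt y)).fderiv
      change fderiv ℝ f' y (Pi.single a 1)
        = fderiv ℝ (ext0 W f.1) (pt y 0) (Pi.single (Sum.inl a) 1)
      rw [h2, h4, ContinuousLinearMap.comp_apply]
      congr 1
      funext b
      rcases b with b | b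
      · change (Pi.single a 1 : Fin r → ℝ) b = (Pi.single (Sum.inl a) 1 : JJ r → ℝ) (Sum.inl b)
        simp [Pi.single_apply]
      · change (0 : ℝ) = (Pi.single (Sum.inl a) 1 : JJ r → ℝ) (Sum.inr b)
        simp [Pi.single_apply]⟩)
    (fun a b => S.P (Sum.inl a) (Sum.inl b)) (P.comp e)
    (fun a b => ⟨(P.smooth e he a b).mono fun y hy => hW _ hy, fun y hy => rfl⟩) F i j
  exact (hrel.2 y hy).symm

end E214
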