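import Pool.Agent.Work.MP_e214ac_gt.M.XFun
import Pool.Agent.Work.MP_e214ac_gt.M.QBase
import Pool.Agent.Work.MP_e214ac_gt.M.GProp

/-!
# Module M/XLie: `L_X P = Q(P)` for the local vector field, and `X_β - X_α` is Hamiltonian

Proof.  Fix `y₀`, `p = e'.symm y₀`, a good `W` (`exists_good`), `D = α.dat he' h`,
`S = locAff P e' he' W _`, `X̂_a = D.X (smx a) ∈ Sm W`.  For `y` near `y₀`: `pt y 0 ∈ W` and
`X e' i y = X̂_(inl i) (pt y 0)`, so `pd l (X e' i) y₀ = (smd (inl l) X̂_(inl i)) (pt y₀ 0)` (chain rule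
for `y ↦ pt y 0`).
* `xfun_lie`: `prim` for `f = smx (inl i)`, `g = smx (inl j)`:
  `D.X (S.P (inl i) (inl j)) - S.br X̂_(inl i) (smx (inl j)) - S.br (smx (inl i)) X̂_(inl j)
   = S.Qc F (inl i) (inl j)` (`AffP.Q_x`, `AffP.br_x`).  At `pt y₀ 0`:
  `D.X (S.P ..) = ∑_c X̂_c smd c (S.P (inl i) (inl j))` (`X_isVF`), only `c = inl l` contribute
  (`S.P (inl i) (inl j)` does not depend on the last four coordinates), and
  `smd (inl l) (S.P (inl i) (inl j)) (pt y₀ 0) = pd l (P.comp e' i j) y₀`;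
  `S.br u (smx (inl j)) = ∑_c S.P c (inl j) smd c u`, only `c = inl l` contribute
  (`S.P (inr k) (inl j) = 0`).  The right side is `evalHom F pd (P.comp e') i j y₀` (`Qc_base`).
  So `∑_l (X_l pd l P_ij - P_lj pd l X_i - P_il pd l X_j) = Q_ij`, i.e. `schoutenVec = - Q_ij`.
* `xfun_sub`: `exists_G_local` gives `W`, `G`; `isG_sub` with `h = smx (inl i)`:
  `X̂^β_(inl i) - X̂^α_(inl i) = S.br G (smx (inl i)) = ∑_c S.P c (inl i) smd c G`; evaluate at `pt y₀ 0`;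
  `g (e'.symm y) = G (pt y 0)` for `y` near `y₀` (`hg`), so `smd (inl l) G (pt y₀ 0) =
  pd l (fun z => g (e'.symm z)) y₀`.
-/

set_option autoImplicit false

open scoped ContDiff Topology

namespace E214

open TopologicalSpace

variable {r : ℕ} {M : Type} [TopologicalSpace M] [ChartedSpace (Fin r → ℝ) M]
  {P : BivectorField r M} {n : ℕ} {F : List (ℝ × Diagram n)}

/-- the linear map `y ↦ (y, 0)` -/
private noncomputable def xlieL : (Fin r → ℝ) →L[ℝ] (JJ r → ℝ) :=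
  LinearMap.toContinuousLinearMap
    { toFun := fun y => pt y 0
      map_add' := fun x y => by
        funext a
        rcases a with i | k
        · rfl
        · simp [pt]
      map_smul' := fun c y => by
        funext a
        rcases a with i | k
        · rfl
        · simp [pt] }

private theorem xlieL_single (l : Fin r) :
    (xlieL (Pi.single l 1) : JJ r → ℝ) = Pi.single (Sum.inl l) 1 := by
  funext a
  change pt (Pi.single l 1) 0 a = _
  rcases a with i | k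
  · by_cases h : i = l
    · subst h; simp [pt]
    · simp [pt, h]
  · simp [pt]

private theorem xlie_pd {W : Opens (JJ r → ℝ)} (f : Sm W) (G : (Fin r → ℝ) → ℝ) (y₀ : Fin r → ℝ)
    (hy₀ : pt y₀ 0 ∈ W) (h : ∀ (y : Fin r → ℝ) (hy : pt y 0 ∈ W), G y = f.1 ⟨pt y 0, hy⟩)
    (l : Fin r) : pd l G y₀ = (smd (Sum.inl l) f).1 ⟨pt y₀ 0, hy₀⟩ := by
  have h1 : HasFDerivAt (fun y : Fin r → ℝ => (xlieL y : JJ r → ℝ)) (xlieL : _ →L[ℝ] _) y₀ :=
    xlieL.hasFDerivAt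
  have h2 : HasFDerivAt (fun y : Fin r → ℝ => ext0 W f.1 (xlieL y))
      ((fderiv ℝ (ext0 W f.1) (pt y₀ 0)).comp xlieL) y₀ :=
    HasFDerivAt.comp (g := ext0 W f.1) y₀ (Sm.differentiableAt f hy₀).hasFDerivAt h1
  have h3 : G =ᶠ[𝓝 y₀] fun y : Fin r → ℝ => ext0 W f.1 (xlieL y) := by
    have h4 : ∀ᶠ x in 𝓝 y₀, pt x 0 ∈ W :=
      (mmor_pt_continuous 0).continuousAt.eventually_mem (W.isOpen.mem_nhds hy₀)
    filter_upwards [h4] with x hx
    rw [h x hx]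
    exact (ext0_of_mem _ hx).symm
  unfold pd
  rw [h3.fderiv_eq, h2.fderiv, ContinuousLinearMap.comp_apply, xlieL_single]
  rfl

private theorem xlie_P_fib (P : BivectorField r M) (e' : OpenPartialHomeomorph M (Fin r → ℝ))
    (he' : e' ∈ atlas (Fin r → ℝ) M) (W : Opens (JJ r → ℝ)) (hW : ∀ z ∈ W, baseP z ∈ e'.target)
    (i j : Fin r) (k : Fin 4) (z : W) :
    (smd (Sum.inr k) ((locAff P e' he' W hW).P (Sum.inl i) (Sum.inl j))).1 z = 0 := by
  have h1 := Sm.dir_mk (W := W) (Pi.single (Sum.inr k) 1)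
    (Phat (P.comp e') (Sum.inl i) (Sum.inl j)) (Phat_smooth P e' he' W hW _ _) z
  refine h1.trans ?_
  have h2 : DifferentiableAt ℝ (P.comp e' i j) (baseP (z : JJ r → ℝ)) :=
    ((P.smooth e' he' i j).contDiffAt (e'.open_target.mem_nhds (hW z z.2))).differentiableAt
      (by simp)
  have h3 : HasFDerivAt (baseP : (JJ r → ℝ) → (Fin r → ℝ))
      (ContinuousLinearMap.pi fun i : Fin r =>
        (ContinuousLinearMap.proj (Sum.inl i) : (JJ r → ℝ) →L[ℝ] ℝ)) z :=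
    (ContinuousLinearMap.pi fun i : Fin r =>
        (ContinuousLinearMap.proj (Sum.inl i) : (JJ r → ℝ) →L[ℝ] ℝ)).hasFDerivAt
  have h4 := (h2.hasFDerivAt.comp (z : JJ r → ℝ) h3).fderiv
  have h5 : fderiv ℝ (Phat (P.comp e') (Sum.inl i) (Sum.inl j)) (z : JJ r → ℝ)
      = (fderiv ℝ (P.comp e' i j) (baseP (z : JJ r → ℝ))).comp
      (ContinuousLinearMap.pi fun i : Fin r =>
        (ContinuousLinearMap.proj (Sum.inl i) : (JJ r → ℝ) →L[ℝ] ℝ)) := h4
  rw [h5, ContinuousLinearMap.comp_apply]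
  have h6 : (ContinuousLinearMap.pi fun i : Fin r =>
        (ContinuousLinearMap.proj (Sum.inl i) : (JJ r → ℝ) →L[ℝ] ℝ))
        (Pi.single (Sum.inr k) 1 : JJ r → ℝ) = 0 := by
    funext a
    simp
  rw [h6, map_zero]

private theorem xlie_P_base (P : BivectorField r M) (e' : OpenPartialHomeomorph M (Fin r → ℝ))
    (he' : e' ∈ atlas (Fin r → ℝ) M) (W : Opens (JJ r → ℝ)) (hW : ∀ z ∈ W, baseP z ∈ e'.target)
    (i j l : Fin r) (y : Fin r → ℝ) (hy : pt y 0 ∈ W) :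
    (smd (Sum.inl l) ((locAff P e' he' W hW).P (Sum.inl i) (Sum.inl j))).1 ⟨pt y 0, hy⟩
      = pd l (P.comp e' i j) y :=
  (xlie_pd _ (P.comp e' i j) y hy (fun _ _ => rfl) l).symm

/-- evaluation at a point of `W` -/
private noncomputable def xlieEv {W : Opens (JJ r → ℝ)} (y : W) : Sm W →ₐ[ℝ] ℝ :=
  (Pi.evalAlgHom ℝ (fun _ : W => ℝ) y).comp (Sm W).val

private theorem xlie_br (P : BivectorField r M) (e' : OpenPartialHomeomorph M (Fin r → ℝ))
    (he' : e' ∈ atlas (Fin r → ℝ) M) (W : Opens (JJ r → ℝ)) (hW : ∀ z ∈ W, baseP z ∈ e'.target)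
    (u : Sm W) (j : Fin r) (y : Fin r → ℝ) (hy : pt y 0 ∈ W) :
    ((locAff P e' he' W hW).br u (smx (Sum.inl j))).1 ⟨pt y 0, hy⟩
      = ∑ l, P.comp e' l j y * (smd (Sum.inl l) u).1 ⟨pt y 0, hy⟩ := by
  have h1 : (locAff P e' he' W hW).br u (smx (Sum.inl j))
      = ∑ a, (locAff P e' he' W hW).P a (Sum.inl j) * smd a u := by
    unfold AffP.br
    refine Finset.sum_congr rfl fun a _ => ?_
    rw [Finset.sum_eq_single (Sum.inl j)]
    · change _ * smd a u * smd (Sum.inl j) (smx (Sum.inl j)) = _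
      rw [smd_smx, if_pos rfl, mul_one]
    · intro b _ hb
      change _ * smd a u * smd b (smx (Sum.inl j)) = _
      rw [smd_smx, if_neg hb, mul_zero]
    · intro h; exact absurd (Finset.mem_univ _) h
  have h2 : ∀ f : Sm W, f.1 ⟨pt y 0, hy⟩ = xlieEv ⟨pt y 0, hy⟩ f := fun f => rfl
  rw [h1, h2, map_sum, Fintype.sum_sum_type]
  have h3 : ∑ k : Fin 4, xlieEv ⟨pt y 0, hy⟩
      ((locAff P e' he' W hW).P (Sum.inr k) (Sum.inl j) * smd (Sum.inr k) u) = 0 := by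
    refine Finset.sum_eq_zero fun k _ => ?_
    rw [map_mul]
    have h4 : xlieEv ⟨pt y 0, hy⟩ ((locAff P e' he' W hW).P (Sum.inr k) (Sum.inl j)) = 0 := rfl
    rw [h4, zero_mul]
  rw [h3, add_zero]
  refine Finset.sum_congr rfl fun l _ => ?_
  rw [map_mul]
  rfl

theorem xfun_lie (hM : IsAffineManifold r M) (hn : 3 ≤ n) (α : Loc P F)
    (X : OpenPartialHomeomorph M (Fin r → ℝ) → Fin r → (Fin r → ℝ) → ℝ) (hX : IsXFun α X)
    (e' : OpenPartialHomeomorph M (Fin r → ℝ)) (he' : e' ∈ atlas (Fin r → ℝ) M) (i j : Fin r)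
    (y : Fin r → ℝ) (hy : y ∈ e'.target) (hy' : e'.symm y ∈ α.O) :
    schoutenVec (P.comp e') (X e') i j y = - evalHom F pd (P.comp e') i j y := by
  obtain ⟨W, -, hyW, hg⟩ := exists_good hM α e' he' (e'.symm y) hy' (e'.map_target hy) ⊤ trivial
  rw [e'.right_inv hy] at hyW
  set S := locAff P e' he' W hg.target with hS
  set D := α.dat he' hg with hD
  have h2 : ∀ f : Sm W, f.1 ⟨pt y 0, hyW⟩ = xlieEv ⟨pt y 0, hyW⟩ f := fun f => rfl
  have hXl : ∀ l, X e' l y = (D.X (smx (Sum.inl l))).1 ⟨pt y 0, hyW⟩ := fun l =>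
    hX e' he' W hg l y hyW
  have hXd : ∀ l i, pd l (X e' i) y = (smd (Sum.inl l) (D.X (smx (Sum.inl i)))).1
      ⟨pt y 0, hyW⟩ := fun l i =>
    xlie_pd _ _ y hyW (fun y' hy' => hX e' he' W hg i y' hy') l
  have hprim : lieB D.X S.br (smx (Sum.inl i)) (smx (Sum.inl j))
      = S.Q F (smx (Sum.inl i)) (smx (Sum.inl j)) := prim D hn _ _
  have hQ : S.Q F (smx (Sum.inl i)) (smx (Sum.inl j)) = S.Qc F (Sum.inl i) (Sum.inl j) :=
    S.Q_x F (Sum.inl i) (Sum.inl j)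
  have hbr : S.br (smx (Sum.inl i)) (smx (Sum.inl j)) = S.P (Sum.inl i) (Sum.inl j) :=
    S.br_x (Sum.inl i) (Sum.inl j)
  rw [hQ] at hprim
  unfold lieB at hprim
  rw [hbr] at hprim
  have h3 := congrArg (fun f : Sm W => f.1 ⟨pt y 0, hyW⟩) hprim
  rw [Qc_base P F e' he' W hg.target i j y hyW] at h3
  have h4 : (D.X (S.P (Sum.inl i) (Sum.inl j)) - S.br (D.X (smx (Sum.inl i))) (smx (Sum.inl j))
      - S.br (smx (Sum.inl i)) (D.X (smx (Sum.inl j))) : Sm W).1 ⟨pt y 0, hyW⟩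
      = (D.X (S.P (Sum.inl i) (Sum.inl j))).1 ⟨pt y 0, hyW⟩
        - (S.br (D.X (smx (Sum.inl i))) (smx (Sum.inl j))).1 ⟨pt y 0, hyW⟩
        - (S.br (smx (Sum.inl i)) (D.X (smx (Sum.inl j)))).1 ⟨pt y 0, hyW⟩ := rfl
  rw [h4] at h3
  have h5 : (D.X (S.P (Sum.inl i) (Sum.inl j))).1 ⟨pt y 0, hyW⟩
      = ∑ l, X e' l y * pd l (P.comp e' i j) y := by
    have h6 : D.X (S.P (Sum.inl i) (Sum.inl j))
        = ∑ c, D.X (smx c) * smd c (S.P (Sum.inl i) (Sum.inl j)) := X_isVF D _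
    rw [h6, h2, map_sum, Fintype.sum_sum_type]
    have h7 : ∑ k : Fin 4, xlieEv ⟨pt y 0, hyW⟩
        (D.X (smx (Sum.inr k)) * smd (Sum.inr k) (S.P (Sum.inl i) (Sum.inl j))) = 0 := by
      refine Finset.sum_eq_zero fun k _ => ?_
      rw [map_mul]
      have h8 : xlieEv ⟨pt y 0, hyW⟩ (smd (Sum.inr k) (S.P (Sum.inl i) (Sum.inl j))) = 0 :=
        xlie_P_fib P e' he' W hg.target i j k _
      rw [h8, mul_zero]
    rw [h7, add_zero]
    refine Finset.sum_congr rfl fun l _ => ?_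
    rw [map_mul, hXl l]
    congr 1
    exact xlie_P_base P e' he' W hg.target i j l y hyW
  have h6 : (S.br (D.X (smx (Sum.inl i))) (smx (Sum.inl j))).1 ⟨pt y 0, hyW⟩
      = ∑ l, P.comp e' l j y * pd l (X e' i) y := by
    rw [hS, xlie_br P e' he' W hg.target _ j y hyW]
    exact Finset.sum_congr rfl fun l _ => by rw [hXd l i]
  have h7 : (S.br (smx (Sum.inl i)) (D.X (smx (Sum.inl j)))).1 ⟨pt y 0, hyW⟩
      = ∑ l, P.comp e' i l y * pd l (X e' j) y := by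
    rw [S.br_swap]
    have h8 : (-(S.br (D.X (smx (Sum.inl j))) (smx (Sum.inl i))) : Sm W).1 ⟨pt y 0, hyW⟩
        = -((S.br (D.X (smx (Sum.inl j))) (smx (Sum.inl i))).1 ⟨pt y 0, hyW⟩) := rfl
    rw [h8, hS, xlie_br P e' he' W hg.target _ i y hyW, ← Finset.sum_neg_distrib]
    refine Finset.sum_congr rfl fun l _ => ?_
    rw [hXd l j, P.anti e' he' i l y hy]
    ring
  rw [h5, h6, h7] at h3
  unfold schoutenVec
  rw [Finset.sum_apply]
  rw [← h3, ← Finset.sum_sub_distrib, ← Finset.sum_sub_distrib, ← Finset.sum_neg_distrib]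
  refine Finset.sum_congr rfl fun l _ => ?_
  simp only [Pi.add_apply, Pi.sub_apply, Pi.mul_apply]
  ring

theorem xfun_sub (hM : IsAffineManifold r M) (hn : 3 ≤ n) (α β : Loc P F)
    (X Y : OpenPartialHomeomorph M (Fin r → ℝ) → Fin r → (Fin r → ℝ) → ℝ) (hX : IsXFun α X)
    (hY : IsXFun β Y) (g : M → ℝ) (hg : IsGFun α β g)
    (e' : OpenPartialHomeomorph M (Fin r → ℝ)) (he' : e' ∈ atlas (Fin r → ℝ) M) (i : Fin r)
    (y : Fin r → ℝ) (hy : y ∈ e'.target) (hα : e'.symm y ∈ α.O) (hβ : e'.symm y ∈ β.O) :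
    Y e' i y - X e' i y = ∑ a, P.comp e' a i y * pd a (fun z => g (e'.symm z)) y := by
  obtain ⟨W, h₁, h₂, -, hyW, G, hG⟩ := exists_G_local hM hn α β e' he' (e'.symm y) hα hβ
    (e'.map_target hy) ⊤ trivial
  rw [e'.right_inv hy] at hyW
  have h3 := isG_sub (α.dat he' h₁) (β.dat he' h₂) hn G hG (smx (Sum.inl i))
  have h4 := congrArg (fun f : Sm W => f.1 ⟨pt y 0, hyW⟩) h3
  rw [hX e' he' W h₁ i y hyW, hY e' he' W h₂ i y hyW]
  have h5 : ((β.dat he' h₂).X (smx (Sum.inl i)) - (α.dat he' h₁).X (smx (Sum.inl i)) : Sm W).1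
      ⟨pt y 0, hyW⟩ = ((β.dat he' h₂).X (smx (Sum.inl i))).1 ⟨pt y 0, hyW⟩
        - ((α.dat he' h₁).X (smx (Sum.inl i))).1 ⟨pt y 0, hyW⟩ := rfl
  rw [← h5, h4, xlie_br P e' he' W h₁.target G i y hyW]
  refine Finset.sum_congr rfl fun l _ => ?_
  rw [xlie_pd G (fun z => g (e'.symm z)) y hyW
    (fun y' hy' => hg e' he' W h₁ h₂ G hG y' hy') l]

end E214
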