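import Pool.Agent.Work.MP_e214ac_gt.M.LocEx
import Pool.Agent.Work.MP_e214ac_gt.M.XLie
import Pool.Agent.Work.MP_e214ac_gt.M.Glue

/-!
# M/Hom: the theorem for homogeneous formulas (assembly)
-/

set_option autoImplicit false

open scoped ContDiff Topology

namespace E214

variable {r : ℕ} {M : Type} [TopologicalSpace M] [ChartedSpace (Fin r → ℝ) M] {n : ℕ}

theorem regular_hom [T2Space M] [SigmaCompactSpace M] (hM : IsAffineManifold r M)
    (P : BivectorField r M) (hP : P.IsPoisson) (hreg : P.IsRegular) (F : List (ℝ × Diagram n))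
    (hn : 3 ≤ n) (hF : IsSymHom (JJ r) F) :
    ∃ Z : VectorField r M, ∀ e ∈ atlas (Fin r → ℝ) M, ∀ i j, ∀ y ∈ e.target,
      evalHom F pd (P.comp e) i j y = schoutenVec (P.comp e) (Z.comp e) i j y := by
  choose α hα using fun p => exists_loc P hreg F hn hF p
  choose X hX using fun p => exists_xfun hM (α p)
  choose g hg using fun p q => exists_gfun hM hn (α p) (α q)
  obtain ⟨Z, hZ⟩ := glue hM P hP (fun p => (α p).O) (fun p => (α p).hO) hα X
    (fun p e he i => xfun_smooth hM (α p) (X p) (hX p) e he i)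
    (fun p e₁ he₁ e₂ he₂ x hx hxO i =>
      xfun_compat hM (α p) (X p) (hX p) e₁ e₂ he₁ he₂ x hx.1 hx.2 hxO i)
    g (fun p q e he => gfun_smooth hM hn (α p) (α q) (g p q) (hg p q) e he)
    (fun p q s x hp hq hs => gfun_add hM hn (α p) (α q) (α s) _ _ _ (hg p q) (hg q s) (hg p s) x
      hp hq hs)
    (fun p q e he i y hy hp hq => xfun_sub hM hn (α p) (α q) (X p) (X q) (hX p) (hX q) (g p q)
      (hg p q) e he i y hy hp hq)
  refine ⟨Z, fun e he i j y hy => ?_⟩
  have hp : e.symm y ∈ (α (e.symm y)).O := hα _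
  rw [hZ (e.symm y) e he i j y hy hp,
    xfun_lie hM hn (α (e.symm y)) (X (e.symm y)) (hX _) e he i j y hy hp, neg_neg]

end E214
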