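import Pool.Agent.Work.MP_e214ac_gt.MDefs
import Pool.Agent.Work.MP_e214ac_gt.R.NF
import Pool.Agent.Work.MP_e214ac_gt.R.InvF
import Pool.Agent.Work.MP_e214ac_gt.R.Cut
import Pool.Agent.Work.MP_e214ac_gt.R.ExK
import Pool.Agent.Work.MP_e214ac_gt.R.ClosedModel
import Pool.Agent.Work.MP_e214ac_gt.R.CasModel
import Pool.Agent.Work.MP_e214ac_gt.S.Exist

/-!
# Module M/LocEx: local data exist at every point of a manifold with a regular bivector

Proof.  `hreg p` gives a chart `e`, an open set `U ∋ e p`, functions `ψ₀_i` and constants `c`.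
1. `c` is skew (evaluate at `e p`, `P.anti`).  `exists_normal_form` gives `g, s₀, τ₀`; put
   `ψ_i = ∑_k g_ik ψ₀_k` on `U`: `∑ P_ab ∂_a ψ_i ∂_b ψ_j = ∑ g_ik g_jl c_kl = [j = τ₀ i] s₀_i` on `U`, and
   the Jacobian of `ψ` at `e p` is `g` times the one of `ψ₀`, invertible.
2. On `ℝ^(JJ r)` let `Ψ z = pt (ψ (baseP z)) (fibP z)` (smooth on `Û = {z | baseP z ∈ U}`),
   `s = Sum.elim s₀ s4`, `τ = Sum.map τ₀ tau4`, `q = pt (e p) 0`.  The Jacobian of `Ψ` is the block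
   matrix `J(ψ) ⊕ 1`.  And `∑ Phat_ab ∂_a Ψ_i ∂_b Ψ_j = [j = τ i] s_i` on `Û` (four cases).
3. `exists_local_inverse` gives `Φ, V`; `exists_extension` (for `Φ`, `V`, `z₀ = Ψ q`) gives
   `φ₀ : ℝ^(JJ r) → ℝ^(JJ r)` smooth, with invertible Jacobian everywhere, `φ₀ = Φ` near `z₀`, affine
   outside a ball.  `φ a = Sm.mk (fun z => φ₀ z a) _`; `K` from `exists_K` (`v j = Pi.single j 1`).
4. `D0 = modelDarb ⊤ s τ ...`; `D0.L` contains the four indices `inr k`, so it has at least three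
   elements.  `closed_model` and `exist_pdat` give `D` with `D.toDarb = D0`, `cas_model` gives `D.Cas`.
5. For `z` near `q`: `Φ (Ψ z) = z` and `Ψ z` is near `z₀`, so `φ₀ (Ψ z) = z`.  Choose `δ > 0` such that this
   holds for all `z` with `|z_a - q_a| < δ` for all `a` and the ball of radius `δ` around `e p` is in `U`.
   `O = e.symm` of this ball `= {x ∈ e.source | dist (e x) (e p) < δ}`, `ε = δ`,
   `ψ_M x = ψ (e x)`.  `hφ`: for `x ∈ O`, `|w_k| < δ`: `φ₀ (pt (ψ (e x)) w) = φ₀ (Ψ (pt (e x) w)) = pt (e x) w`.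
   `hψ`, `hP`: on `e.target ∩ e.symm⁻¹ O` `ψ_M (e.symm y) = ψ y`, use 2. (`hP` at `pt y w`: the derivative
   `pd a` only sees a neighbourhood of the point.)
-/

set_option autoImplicit false

open scoped ContDiff Topology

namespace E214

open TopologicalSpace

variable {r : ℕ} {M : Type} [TopologicalSpace M] [ChartedSpace (Fin r → ℝ) M] {n : ℕ}

private noncomputable def leBase : (JJ r → ℝ) →L[ℝ] (Fin r → ℝ) :=
  ContinuousLinearMap.pi fun i => ContinuousLinearMap.proj (Sum.inl i)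

private theorem le_pd_inl (f : (Fin r → ℝ) → ℝ) (z : JJ r → ℝ)
    (hf : DifferentiableAt ℝ f (baseP z)) (j : Fin r) :
    pd (Sum.inl j) (fun z : JJ r → ℝ => f (baseP z)) z = pd j f (baseP z) := by
  have h1 : HasFDerivAt (baseP : (JJ r → ℝ) → (Fin r → ℝ)) leBase z := leBase.hasFDerivAt
  have h2 := hf.hasFDerivAt.comp z h1
  change fderiv ℝ (f ∘ baseP) z (Pi.single (Sum.inl j) 1) = fderiv ℝ f (baseP z) (Pi.single j 1)
  rw [h2.fderiv]
  change fderiv ℝ f (baseP z) (leBase (Pi.single (Sum.inl j) 1)) = _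
  congr 1
  funext i
  change (Pi.single (Sum.inl j) (1 : ℝ) : JJ r → ℝ) (Sum.inl i) = (Pi.single j (1 : ℝ) : Fin r → ℝ) i
  simp [Pi.single_apply]

private theorem le_pd_inr (f : (Fin r → ℝ) → ℝ) (z : JJ r → ℝ)
    (hf : DifferentiableAt ℝ f (baseP z)) (k : Fin 4) :
    pd (Sum.inr k) (fun z : JJ r → ℝ => f (baseP z)) z = 0 := by
  have h1 : HasFDerivAt (baseP : (JJ r → ℝ) → (Fin r → ℝ)) leBase z := leBase.hasFDerivAt
  have h2 := hf.hasFDerivAt.comp z h1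
  change fderiv ℝ (f ∘ baseP) z (Pi.single (Sum.inr k) 1) = 0
  rw [h2.fderiv]
  change fderiv ℝ f (baseP z) (leBase (Pi.single (Sum.inr k) 1)) = _
  have h3 : (leBase (Pi.single (Sum.inr k) 1 : JJ r → ℝ) : Fin r → ℝ) = 0 := by
    funext i
    change (Pi.single (Sum.inr k) (1 : ℝ) : JJ r → ℝ) (Sum.inl i) = 0
    simp [Pi.single_apply]
  rw [h3, map_zero]

private theorem le_pd_fib (a : JJ r) (k : Fin 4) (z : JJ r → ℝ) :
    pd a (fun z : JJ r → ℝ => fibP z k) z = if a = Sum.inr k then 1 else 0 := by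
  have h1 : HasFDerivAt (fun z : JJ r → ℝ => fibP z k)
      (ContinuousLinearMap.proj (Sum.inr k) : (JJ r → ℝ) →L[ℝ] ℝ) z :=
    (ContinuousLinearMap.proj (Sum.inr k) : (JJ r → ℝ) →L[ℝ] ℝ).hasFDerivAt
  change fderiv ℝ (fun z : JJ r → ℝ => fibP z k) z (Pi.single a 1) = _
  rw [h1.fderiv]
  change (Pi.single a (1 : ℝ) : JJ r → ℝ) (Sum.inr k) = _
  simp [Pi.single_apply, eq_comm]

/-- step 1: Darboux coordinates with the normal form -/
private theorem le_normal (P : BivectorField r M) (e : OpenPartialHomeomorph M (Fin r → ℝ))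
    (he : e ∈ atlas (Fin r → ℝ) M) (p : M) (U : Set (Fin r → ℝ)) (ψ₀ : Fin r → (Fin r → ℝ) → ℝ)
    (c : Fin r → Fin r → ℝ) (hU : IsOpen U) (hUe : U ⊆ e.target) (hpU : e p ∈ U)
    (hψ₀ : ∀ i, ContDiffOn ℝ ∞ (ψ₀ i) U)
    (hdet : (Matrix.of fun i a => pd a (ψ₀ i) (e p)).det ≠ 0)
    (hc : ∀ y ∈ U, ∀ i j, ∑ a, ∑ b, P.comp e a b y * pd a (ψ₀ i) y * pd b (ψ₀ j) y = c i j) :
    ∃ (ψ : Fin r → (Fin r → ℝ) → ℝ) (s : Fin r → ℝ) (τ : Fin r → Fin r),
      (∀ i, ContDiffOn ℝ ∞ (ψ i) U) ∧ (Matrix.of fun i a => pd a (ψ i) (e p)).det ≠ 0 ∧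
      (∀ i, τ (τ i) = i) ∧ (∀ i, s (τ i) = - s i) ∧ (∀ i, s i = 0 ∨ s i = 1 ∨ s i = -1) ∧
      ∀ y ∈ U, ∀ i j, ∑ a, ∑ b, P.comp e a b y * pd a (ψ i) y * pd b (ψ j) y
        = if j = τ i then s i else 0 := by
  have hskew : ∀ i j, (Matrix.of c) i j = - (Matrix.of c) j i := by
    intro i j
    rw [Matrix.of_apply, Matrix.of_apply, ← hc _ hpU i j, ← hc _ hpU j i, Finset.sum_comm,
      ← Finset.sum_neg_distrib]
    refine Finset.sum_congr rfl fun b _ => ?_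
    rw [← Finset.sum_neg_distrib]
    refine Finset.sum_congr rfl fun a _ => ?_
    rw [P.anti e he a b _ (hUe hpU)]
    ring
  obtain ⟨g, s, τ, hg, hτ, hsτ, hs, hN⟩ := exists_normal_form r (Matrix.of c) hskew
  have hd : ∀ y ∈ U, ∀ k, DifferentiableAt ℝ (ψ₀ k) y := fun y hy k =>
    ((hψ₀ k).contDiffAt (hU.mem_nhds hy)).differentiableAt (by simp)
  have hpd : ∀ y ∈ U, ∀ i a, pd a (fun y => ∑ k, g i k * ψ₀ k y) y
      = ∑ k, g i k * pd a (ψ₀ k) y := by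
    intro y hy i a
    have h1 : HasFDerivAt (fun y => ∑ k, g i k * ψ₀ k y) (∑ k, g i k • fderiv ℝ (ψ₀ k) y) y :=
      HasFDerivAt.fun_sum fun k _ => (hd y hy k).hasFDerivAt.const_mul (g i k)
    change fderiv ℝ (fun y => ∑ k, g i k * ψ₀ k y) y (Pi.single a 1) = _
    rw [h1.fderiv]
    simp [pd]
  refine ⟨fun i y => ∑ k, g i k * ψ₀ k y, s, τ, ?_, ?_, hτ, hsτ, hs, ?_⟩
  · intro i
    exact ContDiffOn.sum fun k _ => contDiffOn_const.mul (hψ₀ k)
  · have h1 : (Matrix.of fun i a => pd a (fun y => ∑ k, g i k * ψ₀ k y) (e p))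
        = g * Matrix.of fun i a => pd a (ψ₀ i) (e p) := by
      ext i a
      rw [Matrix.mul_apply, Matrix.of_apply, hpd _ hpU]
      rfl
    rw [h1, Matrix.det_mul]
    exact mul_ne_zero hg.ne_zero hdet
  · intro y hy i j
    rw [← hN i j]
    have h1 : ∀ k l, g i k * g j l * (Matrix.of c) k l = ∑ a, ∑ b,
        g i k * g j l * (P.comp e a b y * pd a (ψ₀ k) y * pd b (ψ₀ l) y) := by
      intro k l
      rw [Matrix.of_apply, ← hc y hy k l, Finset.mul_sum]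
      exact Finset.sum_congr rfl fun a _ => Finset.mul_sum _ _ _
    have h2 : ∀ a b, P.comp e a b y * pd a (fun y => ∑ k, g i k * ψ₀ k y) y
        * pd b (fun y => ∑ k, g j k * ψ₀ k y) y = ∑ k, ∑ l,
        g i k * g j l * (P.comp e a b y * pd a (ψ₀ k) y * pd b (ψ₀ l) y) := by
      intro a b
      rw [hpd y hy, hpd y hy, mul_assoc, Finset.sum_mul_sum, Finset.mul_sum]
      refine Finset.sum_congr rfl fun k _ => ?_
      rw [Finset.mul_sum]
      exact Finset.sum_congr rfl fun l _ => by ring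
    simp only [h1, h2]
    calc ∑ a, ∑ b, ∑ k, ∑ l, g i k * g j l * (P.comp e a b y * pd a (ψ₀ k) y * pd b (ψ₀ l) y)
        = ∑ a, ∑ k, ∑ b, ∑ l, g i k * g j l * (P.comp e a b y * pd a (ψ₀ k) y * pd b (ψ₀ l) y) :=
          Finset.sum_congr rfl fun a _ => Finset.sum_comm
      _ = ∑ k, ∑ a, ∑ b, ∑ l, g i k * g j l * (P.comp e a b y * pd a (ψ₀ k) y * pd b (ψ₀ l) y) :=
          Finset.sum_comm
      _ = ∑ k, ∑ a, ∑ l, ∑ b, g i k * g j l * (P.comp e a b y * pd a (ψ₀ k) y * pd b (ψ₀ l) y) :=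
          Finset.sum_congr rfl fun k _ => Finset.sum_congr rfl fun a _ => Finset.sum_comm
      _ = ∑ k, ∑ l, ∑ a, ∑ b, g i k * g j l * (P.comp e a b y * pd a (ψ₀ k) y * pd b (ψ₀ l) y) :=
          Finset.sum_congr rfl fun k _ => Finset.sum_comm

/-- the map `(y, w) ↦ (ψ y, w)` -/
private def lePsi (ψ : Fin r → (Fin r → ℝ) → ℝ) (z : JJ r → ℝ) : JJ r → ℝ :=
  pt (fun k => ψ k (baseP z)) (fibP z)

private theorem lePsi_smooth (ψ : Fin r → (Fin r → ℝ) → ℝ) (U : Set (Fin r → ℝ))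
    (hψ : ∀ i, ContDiffOn ℝ ∞ (ψ i) U) : ContDiffOn ℝ ∞ (lePsi ψ) {z | baseP z ∈ U} := by
  refine contDiffOn_pi.2 fun a => ?_
  rcases a with i | k
  · exact (hψ i).comp contDiff_baseP.contDiffOn (fun z hz => hz)
  · exact (contDiff_apply ℝ ℝ (Sum.inr k)).contDiffOn

private theorem le_pd_ll (ψ : Fin r → (Fin r → ℝ) → ℝ) (z : JJ r → ℝ)
    (hψ : ∀ i, DifferentiableAt ℝ (ψ i) (baseP z)) (i a : Fin r) :
    pd (Sum.inl a) (fun z => lePsi ψ z (Sum.inl i)) z = pd a (ψ i) (baseP z) :=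
  le_pd_inl (ψ i) z (hψ i) a

private theorem le_pd_lr (ψ : Fin r → (Fin r → ℝ) → ℝ) (z : JJ r → ℝ)
    (hψ : ∀ i, DifferentiableAt ℝ (ψ i) (baseP z)) (i : Fin r) (k : Fin 4) :
    pd (Sum.inr k) (fun z => lePsi ψ z (Sum.inl i)) z = 0 :=
  le_pd_inr (ψ i) z (hψ i) k

private theorem le_pd_r (ψ : Fin r → (Fin r → ℝ) → ℝ) (z : JJ r → ℝ) (k : Fin 4) (a : JJ r) :
    pd a (fun z => lePsi ψ z (Sum.inr k)) z = if a = Sum.inr k then 1 else 0 :=
  le_pd_fib a k z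

private theorem le_block (ψ : Fin r → (Fin r → ℝ) → ℝ) (z : JJ r → ℝ)
    (hψ : ∀ i, DifferentiableAt ℝ (ψ i) (baseP z))
    (hdet : (Matrix.of fun i a => pd a (ψ i) (baseP z)).det ≠ 0) :
    (Matrix.of fun j a => pd a (fun y => lePsi ψ y j) z).det ≠ 0 := by
  have h1 : (Matrix.of fun j a => pd a (fun y => lePsi ψ y j) z)
      = Matrix.fromBlocks (Matrix.of fun i a => pd a (ψ i) (baseP z)) 0 0
        (1 : Matrix (Fin 4) (Fin 4) ℝ) := by
    ext j a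
    rcases j with i | k <;> rcases a with a | l
    · rw [Matrix.of_apply, le_pd_ll ψ z hψ, Matrix.fromBlocks_apply₁₁]
      rfl
    · rw [Matrix.of_apply, le_pd_lr ψ z hψ, Matrix.fromBlocks_apply₁₂]
      rfl
    · rw [Matrix.of_apply, le_pd_r, Matrix.fromBlocks_apply₂₁]
      simp
    · rw [Matrix.of_apply, le_pd_r, Matrix.fromBlocks_apply₂₂, Matrix.one_apply]
      simp [eq_comm]
  rw [h1, Matrix.det_fromBlocks_zero₂₁, Matrix.det_one, mul_one]
  exact hdet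

private theorem le_hP (Q : Fin r → Fin r → (Fin r → ℝ) → ℝ) (ψ : Fin r → (Fin r → ℝ) → ℝ)
    (y : Fin r → ℝ) (w : Fin 4 → ℝ)
    (hψ : ∀ i, DifferentiableAt ℝ (ψ i) y) (s : Fin r → ℝ) (τ : Fin r → Fin r)
    (hQ : ∀ i j, ∑ a, ∑ b, Q a b y * pd a (ψ i) y * pd b (ψ j) y = if j = τ i then s i else 0)
    (i j : JJ r) :
    ∑ a, ∑ b, Phat Q a b (pt y w) * pd a (fun z => lePsi ψ z i) (pt y w) *
      pd b (fun z => lePsi ψ z j) (pt y w)
      = if j = Sum.map τ tau4 i then Sum.elim s s4 i else 0 := by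
  have hz : ∀ i, DifferentiableAt ℝ (ψ i) (baseP (pt y w)) := hψ
  rcases i with i | k <;> rcases j with j | l
  · simp only [Fintype.sum_sum_type, le_pd_ll ψ (pt y w) hz, le_pd_lr ψ (pt y w) hz, mul_zero,
      zero_mul, Finset.sum_const_zero, add_zero]
    have h := hQ i j
    simp only [Sum.map_inl, Sum.inl.injEq, Sum.elim_inl]
    exact h
  · simp only [Fintype.sum_sum_type, le_pd_ll ψ (pt y w) hz, le_pd_lr ψ (pt y w) hz, le_pd_r,
      mul_zero, zero_mul, Finset.sum_const_zero, add_zero, zero_add]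
    simp [Phat]
  · simp only [Fintype.sum_sum_type, le_pd_ll ψ (pt y w) hz, le_pd_lr ψ (pt y w) hz, le_pd_r,
      mul_zero, zero_mul, Finset.sum_const_zero, add_zero, zero_add]
    simp [Phat]
  · simp only [Fintype.sum_sum_type, le_pd_r, Sum.inr.injEq, reduceCtorEq, if_false, mul_zero,
      zero_mul, Finset.sum_const_zero, add_zero, zero_add, mul_ite, mul_one, ite_mul,
      Finset.sum_ite_eq', Finset.mem_univ, if_true, Sum.map_inr, Sum.elim_inr]
    simp only [Phat]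

theorem exists_loc (P : BivectorField r M) (hreg : P.IsRegular) (F : List (ℝ × Diagram n))
    (hn : 3 ≤ n) (hF : IsSymHom (JJ r) F) (p : M) : ∃ α : Loc P F, p ∈ α.O := by
  obtain ⟨e, he, hpe, U, ψ₀, c, hU, hUe, hpU, hψ₀, hdet₀, hc⟩ := hreg p
  obtain ⟨ψ, s₀, τ₀, hψ, hdet, hτ₀, hsτ₀, hs₀, hQ⟩ :=
    le_normal P e he p U ψ₀ c hU hUe hpU hψ₀ hdet₀ hc
  have hd : ∀ y ∈ U, ∀ k, DifferentiableAt ℝ (ψ k) y := fun y hy k =>
    ((hψ k).contDiffAt (hU.mem_nhds hy)).differentiableAt (by simp)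
  have hUh : IsOpen {z : JJ r → ℝ | baseP z ∈ U} := hU.preimage contDiff_baseP.continuous
  have hqU : pt (e p) 0 ∈ {z : JJ r → ℝ | baseP z ∈ U} := hpU
  obtain ⟨Φ, V, hV, hqV, hΦ, hΦq, hinv, hev, hdetΦ⟩ := exists_local_inverse (lePsi ψ) _ hUh
    (pt (e p) 0) hqU (lePsi_smooth ψ U hψ) (le_block ψ (pt (e p) 0) (hd _ hpU) hdet)
  obtain ⟨φ₀, hφ₀, hdetφ, hφΦ, R, N, cc, hout⟩ :=
    exists_extension Φ V hV (lePsi ψ (pt (e p) 0)) hqV hΦ hdetΦ
  have hφ₀' : ∀ a, ContDiffOn ℝ ∞ (fun z => φ₀ z a) (⊤ : Opens (JJ r → ℝ)) := fun a =>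
    (contDiff_pi.1 hφ₀ a).contDiffOn
  obtain ⟨K, hK⟩ := exists_K (W := (⊤ : Opens (JJ r → ℝ))) (fun j : JJ r => Pi.single j 1)
    (fun a => Sm.mk (fun z => φ₀ z a) (hφ₀' a)) (by
    intro z
    have h1 : ∀ j a, (Sm.dir (Pi.single j 1)
        (Sm.mk (W := (⊤ : Opens (JJ r → ℝ))) (fun z => φ₀ z a) (hφ₀' a))).1 z
        = pd j (fun z => φ₀ z a) z := fun j a => Sm.dir_mk _ _ _ z
    simp only [h1]
    exact hdetφ z)
  have hτ : ∀ i : JJ r, Sum.map τ₀ tau4 (Sum.map τ₀ tau4 i) = i := by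
    intro i
    rcases i with i | k
    · simp [hτ₀]
    · fin_cases k <;> rfl
  have hsτ : ∀ i : JJ r, Sum.elim s₀ s4 (Sum.map τ₀ tau4 i) = - Sum.elim s₀ s4 i := by
    intro i
    rcases i with i | k
    · simp [hsτ₀]
    · fin_cases k <;> simp [s4, tau4]
  have hs : ∀ i : JJ r, Sum.elim s₀ s4 i = 0 ∨ Sum.elim s₀ s4 i = 1 ∨ Sum.elim s₀ s4 i = -1 := by
    intro i
    rcases i with i | k
    · simpa using hs₀ i
    · fin_cases k <;> simp [s4]
  have hL : 3 ≤ (modelDarb ⊤ (Sum.elim s₀ s4) (Sum.map τ₀ tau4) hτ hsτ hs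
      (fun a => Sm.mk (fun z => φ₀ z a) (hφ₀' a)) K hK).L.card := by
    have h1 : (Finset.univ : Finset (Fin 4)).map ⟨Sum.inr, Sum.inr_injective⟩ ⊆
        (modelDarb ⊤ (Sum.elim s₀ s4) (Sum.map τ₀ tau4) hτ hsτ hs
          (fun a => Sm.mk (fun z => φ₀ z a) (hφ₀' a)) K hK).L := by
      intro a ha
      rw [Finset.mem_map] at ha
      obtain ⟨k, _, rfl⟩ := ha
      refine Finset.mem_filter.2 ⟨Finset.mem_univ _, ?_⟩
      change s4 k ≠ 0
      fin_cases k <;> simp [s4]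
    have h2 := Finset.card_le_card h1
    rw [Finset.card_map, Finset.card_univ, Fintype.card_fin] at h2
    omega
  obtain ⟨D, hD⟩ := exist_pdat (modelAff ⊤ (Sum.elim s₀ s4) (Sum.map τ₀ tau4) hτ hsτ
      (fun a => Sm.mk (fun z => φ₀ z a) (hφ₀' a)) K hK) F _ hL
      (closed_model F hF ⊤ _ _ hτ hsτ _ K hK)
  have hcas : D.Cas := cas_model F hn _ _ hτ hsτ hs _ K hK D hD R N cc hout
  have hev3 : ∀ᶠ z in 𝓝 (pt (e p) 0 : JJ r → ℝ), baseP z ∈ U ∧ φ₀ (lePsi ψ z) = z := by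
    have h1 : ContinuousAt (lePsi ψ) (pt (e p) 0) :=
      ((lePsi_smooth ψ U hψ).continuousOn).continuousAt (hUh.mem_nhds hqU)
    have h2 := h1.eventually hφΦ
    filter_upwards [hev, h2, hUh.mem_nhds hqU] with z hz1 hz2 hz3
    exact ⟨hz3, by rw [hz2]; exact hz1.2⟩
  obtain ⟨δ, hδ, hball⟩ := Metric.eventually_nhds_iff.1 hev3
  have hin : ∀ (y : Fin r → ℝ) (w : Fin 4 → ℝ), dist y (e p) < δ → (∀ k, |w k| < δ) →
      y ∈ U ∧ φ₀ (lePsi ψ (pt y w)) = pt y w := by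
    intro y w hy hw
    have h1 : dist (pt y w : JJ r → ℝ) (pt (e p) 0) < δ := by
      rw [dist_pi_lt_iff hδ]
      intro a
      rcases a with i | k
      · exact lt_of_le_of_lt (dist_le_pi_dist y (e p) i) hy
      · change dist (w k) 0 < δ
        rw [Real.dist_eq, sub_zero]
        exact hw k
    exact hball h1
  have hinU : ∀ y : Fin r → ℝ, dist y (e p) < δ → y ∈ U := fun y hy =>
    (hin y 0 hy (by simpa using hδ)).1
  have hOo : IsOpen (e.source ∩ e ⁻¹' Metric.ball (e p) δ) :=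
    e.isOpen_inter_preimage Metric.isOpen_ball
  have hmem : ∀ y ∈ e.target ∩ e.symm ⁻¹' (e.source ∩ e ⁻¹' Metric.ball (e p) δ),
      dist y (e p) < δ := by
    rintro y ⟨hy, _, hy2⟩
    have h3 : e (e.symm y) ∈ Metric.ball (e p) δ := hy2
    rw [e.right_inv hy] at h3
    exact h3
  refine ⟨{
    e := e
    he := he
    O := e.source ∩ e ⁻¹' Metric.ball (e p) δ
    hO := hOo
    hOe := Set.inter_subset_left
    ε := δ
    hε := hδ
    ψ := fun x i => ψ i (e x)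
    hψ := ?_
    s := Sum.elim s₀ s4
    τ := Sum.map τ₀ tau4
    hτ := hτ
    hsτ := hsτ
    hs := hs
    φ := fun a => Sm.mk (fun z => φ₀ z a) (hφ₀' a)
    K := K
    hK := hK
    hφ := ?_
    hP := ?_
    D := D
    hD := hcas }, ⟨hpe, Metric.mem_ball_self hδ⟩⟩
  · refine contDiffOn_pi.2 fun i => ?_
    refine ((hψ i).mono (fun y hy => hinU y (hmem y hy))).congr fun y hy => ?_
    change ψ i (e (e.symm y)) = ψ i y
    rw [e.right_inv hy.1]
  · rintro x ⟨hx, hx2⟩ w hw a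
    exact congrFun (hin (e x) w hx2 hw).2 a
  · intro y hy w i j
    have hyU : y ∈ U := hinU y (hmem y hy)
    have h1 : ∀ a i, pd a (fun z : JJ r → ℝ =>
        pt (fun k => ψ k (e (e.symm (baseP z)))) (fibP z) i) (pt y w)
        = pd a (fun z => lePsi ψ z i) (pt y w) := by
      intro a i
      have h2 : (fun z : JJ r → ℝ => pt (fun k => ψ k (e (e.symm (baseP z)))) (fibP z) i)
          =ᶠ[𝓝 (pt y w)] (fun z => lePsi ψ z i) := by
        have h3 : ∀ᶠ z in 𝓝 (pt y w : JJ r → ℝ), baseP z ∈ e.target :=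
          (e.open_target.preimage contDiff_baseP.continuous).mem_nhds (show baseP (pt y w) ∈ _ from hy.1)
        filter_upwards [h3] with z hz
        simp only [lePsi, e.right_inv hz]
      change fderiv ℝ _ _ _ = fderiv ℝ _ _ _
      rw [h2.fderiv_eq]
    simp only [h1]
    exact le_hP (P.comp e) ψ y w (hd y hyU) s₀ τ₀ (hQ y hyU) i j

end E214
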