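import Pool.Agent.Work.MP_e214ac_gt.MDefs
import Pool.Agent.Work.MP_e214ac_gt.R.AffHoms

/-!
# Module M/MMor: the homomorphism from the model to the functions on an adapted open set is affine

Proof.  Apply `model_std` with `W₀ = ⊤`, `θ = α.θ e'`, `N = A ⊕ 1` (`Matrix.fromBlocks A 0 0 1`),
`c = (b, 0)`, where `A, b` come from `h.affine`.
* `hN`: for `z ∈ W`, `p = e'.symm (baseP z) ∈ α.O` and `α.hφ p` gives
  `φ_a (θ z) = pt (α.e p) (fibP z) a`, and `α.e p = A (baseP z) + b`.
* `hPθ`: let `κ z = pt (A (baseP z) + b) (fibP z)`.  Near a point `z ∈ W` (an open set)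
  `α.θ e' = (z ↦ pt (α.ψ (α.e.symm (baseP z))) (fibP z)) ∘ κ`, because
  `e'.symm (baseP z) ∈ α.O ⊆ α.e.source`.  Chain rule: `∂_a θ_i (z) = ∑_c N_ca (∂_c θ⁰_i)(κ z)`, where
  `θ⁰ = α.θ α.e` (smooth near `κ z`: `θ_smooth`-like argument, or `α.hψ`).  And
  `∑_{ab} N_ca N_db Phat (P.comp e')_ab (z) = Phat (P.comp α.e)_cd (κ z)`: for `c, d` both `inl` this is
  `P.compat e' _ α.e _ p` (`pd a (fun y => α.e (e'.symm y) i) (e' p) = A i a` since the function is
  affine near `e' p = baseP z`), the other cases are trivial.  So the sum is the left side of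
  `α.hP (α.e p) _ (fibP z) i j`.
-/

set_option autoImplicit false

open scoped ContDiff Topology

namespace E214

open TopologicalSpace

variable {r : ℕ} {M : Type} [TopologicalSpace M] [ChartedSpace (Fin r → ℝ) M]
  {P : BivectorField r M} {n : ℕ} {F : List (ℝ × Diagram n)}

theorem mmor_pt_continuous (w : Fin 4 → ℝ) : Continuous (fun y : Fin r → ℝ => pt y w) := by
  refine continuous_pi fun a => ?_
  rcases a with i | k
  · exact continuous_apply i
  · exact continuous_const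

theorem mmor_eventually (W : Opens (JJ r → ℝ)) (z : JJ r → ℝ) (hz : z ∈ W) :
    ∀ᶠ y in 𝓝 (baseP z), pt y (fibP z) ∈ W := by
  refine (mmor_pt_continuous (fibP z)).continuousAt.eventually_mem (W.isOpen.mem_nhds ?_)
  change pt (baseP z) (fibP z) ∈ W
  rw [pt_base_fib]
  exact hz

/-- `A ⊕ 1` -/
def mmorN (A : Matrix (Fin r) (Fin r) ℝ) : Matrix (JJ r) (JJ r) ℝ :=
  Matrix.fromBlocks A 0 0 1

theorem mmorN_det (A : Matrix (Fin r) (Fin r) ℝ) (hA : IsUnit A.det) : IsUnit (mmorN A).det := by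
  unfold mmorN
  rw [Matrix.det_fromBlocks_zero₂₁, Matrix.det_one, mul_one]
  exact hA

theorem mmor_kap (A : Matrix (Fin r) (Fin r) ℝ) (b : Fin r → ℝ) (z : JJ r → ℝ) (a : JJ r) :
    pt (A.mulVec (baseP z) + b) (fibP z) a
      = ∑ b', mmorN A a b' * z b' + (Sum.elim b 0 : JJ r → ℝ) a := by
  rw [Fintype.sum_sum_type]
  rcases a with i | k
  · simp only [mmorN, Matrix.fromBlocks_apply₁₁, Matrix.fromBlocks_apply₁₂, Matrix.zero_apply,
      zero_mul, Finset.sum_const_zero, add_zero, Sum.elim_inl]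
    rfl
  · simp only [mmorN, Matrix.fromBlocks_apply₂₁, Matrix.fromBlocks_apply₂₂, Matrix.zero_apply,
      zero_mul, Finset.sum_const_zero, zero_add, Sum.elim_inr, Pi.zero_apply, add_zero,
      Matrix.one_apply, ite_mul, one_mul, Finset.sum_ite_eq, Finset.mem_univ, if_true]
    rfl

section general

variable {J : Type} [Fintype J] [DecidableEq J]

theorem mmor_fderiv_sum (f : (J → ℝ) → ℝ) (y v : J → ℝ) :
    fderiv ℝ f y v = ∑ a, v a * pd a f y := by
  have h1 : v = ∑ a, v a • (Pi.single a 1 : J → ℝ) := by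
    funext b
    rw [Finset.sum_apply]
    simp [Pi.single_apply]
  conv_lhs => rw [h1]
  rw [map_sum]
  simp only [map_smul, smul_eq_mul]
  rfl

/-- chain rule for an affine map -/
theorem mmor_pd_comp (N : Matrix J J ℝ) (c : J → ℝ) (κ : (J → ℝ) → (J → ℝ)) (f g : (J → ℝ) → ℝ)
    (z : J → ℝ) (hκ : ∀ᶠ y in 𝓝 z, ∀ a, κ y a = ∑ b, N a b * y b + c a)
    (hg : DifferentiableAt ℝ g (κ z)) (hf : ∀ᶠ y in 𝓝 z, f y = g (κ y)) (a : J) :
    pd a f z = ∑ b, N b a * pd b g (κ z) := by
  have hκ' : HasFDerivAt κ (LinearMap.toContinuousLinearMap (Matrix.toLin' N)) z := by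
    have h1 : HasFDerivAt (fun y : J → ℝ => (LinearMap.toContinuousLinearMap (Matrix.toLin' N)) y + c)
        (LinearMap.toContinuousLinearMap (Matrix.toLin' N)) z :=
      (LinearMap.toContinuousLinearMap (Matrix.toLin' N)).hasFDerivAt.add_const c
    refine h1.congr_of_eventuallyEq ?_
    filter_upwards [hκ] with y hy
    funext a
    rw [hy a]
    rfl
  have h2 : HasFDerivAt f ((fderiv ℝ g (κ z)).comp
      (LinearMap.toContinuousLinearMap (Matrix.toLin' N))) z :=
    (hg.hasFDerivAt.comp z hκ').congr_of_eventuallyEq hf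
  unfold pd
  rw [h2.fderiv, ContinuousLinearMap.comp_apply, mmor_fderiv_sum]
  refine Finset.sum_congr rfl fun b _ => ?_
  congr 1
  change (N.mulVec (Pi.single a 1)) b = N b a
  rw [Matrix.mulVec_single_one]
  rfl

theorem mmor_pd_affine (A : Matrix J J ℝ) (b : J → ℝ) (k a : J) (f : (J → ℝ) → ℝ) (y₀ : J → ℝ)
    (h : ∀ᶠ y in 𝓝 y₀, f y = (A.mulVec y + b) k) : pd a f y₀ = A k a := by
  have h1 := mmor_pd_comp A b (fun y => A.mulVec y + b) f (fun y => y k) y₀
    (Filter.Eventually.of_forall fun y a => rfl) (differentiableAt_apply k _) h a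
  rw [h1]
  have h2 : ∀ b' y, pd b' (fun y : J → ℝ => y k) y = if b' = k then 1 else 0 := by
    intro b' y
    unfold pd
    have h3 : fderiv ℝ (fun z : J → ℝ => z k) y
        = (ContinuousLinearMap.proj k : (J → ℝ) →L[ℝ] ℝ) :=
      (ContinuousLinearMap.proj k : (J → ℝ) →L[ℝ] ℝ).hasFDerivAt.fderiv
    rw [h3]
    by_cases hb : b' = k
    · subst hb; simp
    · rw [if_neg hb]; simp [Ne.symm hb]
  simp [h2]

omit [DecidableEq J] in
theorem mmor_four (X : J → J → ℝ) (N : Matrix J J ℝ) (u v : J → ℝ) :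
    ∑ a, ∑ b, X a b * (∑ c, N c a * u c) * (∑ d, N d b * v d)
      = ∑ c, ∑ d, (∑ a, ∑ b, (N c a * N d b) * X a b) * u c * v d := by
  have h1 : ∀ a b, X a b * (∑ c, N c a * u c) * (∑ d, N d b * v d)
      = ∑ c, ∑ d, (N c a * N d b) * X a b * u c * v d := by
    intro a b
    rw [mul_assoc, Finset.sum_mul_sum, Finset.mul_sum]
    refine Finset.sum_congr rfl fun c _ => ?_
    rw [Finset.mul_sum]
    exact Finset.sum_congr rfl fun d _ => by ring
  have h2 : ∀ a, ∑ b, ∑ c, ∑ d, (N c a * N d b) * X a b * u c * v d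
      = ∑ c, ∑ b, ∑ d, (N c a * N d b) * X a b * u c * v d := fun a => Finset.sum_comm
  simp only [h1, h2]
  rw [Finset.sum_comm]
  refine Finset.sum_congr rfl fun c _ => ?_
  have h3 : ∀ a, ∑ b, ∑ d, (N c a * N d b) * X a b * u c * v d
      = ∑ d, ∑ b, (N c a * N d b) * X a b * u c * v d := fun a => Finset.sum_comm
  simp only [h3]
  rw [Finset.sum_comm]
  refine Finset.sum_congr rfl fun d _ => ?_
  simp only [Finset.sum_mul]

end general

/-- transformation rule of `P ⊕ P₀₀` under an affine change of the chart -/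
theorem mmor_Phat (P : BivectorField r M) (e₁ e₂ : OpenPartialHomeomorph M (Fin r → ℝ))
    (he₁ : e₁ ∈ atlas (Fin r → ℝ) M) (he₂ : e₂ ∈ atlas (Fin r → ℝ) M)
    (A : Matrix (Fin r) (Fin r) ℝ) (b : Fin r → ℝ) (z : JJ r → ℝ) (hz₂ : baseP z ∈ e₂.target)
    (hz₁ : e₂.symm (baseP z) ∈ e₁.source)
    (hA : ∀ᶠ y in 𝓝 (baseP z), e₁ (e₂.symm y) = A.mulVec y + b) (c d : JJ r) :
    Phat (P.comp e₁) c d (pt (A.mulVec (baseP z) + b) (fibP z))
      = ∑ i, ∑ j, (mmorN A c i * mmorN A d j) * Phat (P.comp e₂) i j z := by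
  have hAz : e₁ (e₂.symm (baseP z)) = A.mulVec (baseP z) + b := hA.self_of_nhds
  rw [Fintype.sum_sum_type]
  simp only [Fintype.sum_sum_type]
  rcases c with k | k <;> rcases d with l | l
  · have h1 := P.compat e₂ he₂ e₁ he₁ (e₂.symm (baseP z)) ⟨e₂.map_target hz₂, hz₁⟩ k l
    rw [e₂.right_inv hz₂, hAz] at h1
    have h2 : ∀ a k, pd a (fun z => e₁ (e₂.symm z) k) (baseP z) = A k a := fun a k =>
      mmor_pd_affine A b k a _ _ (hA.mono fun y hy => by rw [hy])
    simp only [h2] at h1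
    simp only [mmorN, Matrix.fromBlocks_apply₁₁, Matrix.fromBlocks_apply₁₂, Matrix.zero_apply,
      zero_mul, mul_zero, Finset.sum_const_zero, add_zero]
    exact h1
  · simp [mmorN, Phat]
  · simp [mmorN, Phat]
  · simp only [mmorN, Matrix.fromBlocks_apply₂₁, Matrix.fromBlocks_apply₂₂, Matrix.zero_apply,
      zero_mul, mul_zero, Finset.sum_const_zero, zero_add, Matrix.one_apply, Phat]
    rw [Finset.sum_eq_single k]
    · rw [Finset.sum_eq_single l]
      · simp
      · intro j _ hj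
        simp [Ne.symm hj]
      · intro h; exact absurd (Finset.mem_univ l) h
    · intro i _ hi
      refine Finset.sum_eq_zero fun j _ => ?_
      simp [Ne.symm hi]
    · intro h; exact absurd (Finset.mem_univ k) h

private theorem mmor_theta_diff (α : Loc P F) (z : JJ r → ℝ)
    (hz : baseP z ∈ α.e.target ∩ α.e.symm ⁻¹' α.O) (i : JJ r) :
    DifferentiableAt ℝ (fun y => α.θ α.e y i) z := by
  rcases i with i | k
  · have hop : IsOpen (α.e.target ∩ α.e.symm ⁻¹' α.O) := α.e.isOpen_inter_preimage_symm α.hO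
    have h1 : DifferentiableAt ℝ (fun y => α.ψ (α.e.symm y) i) (baseP z) :=
      (((contDiffOn_pi.1 α.hψ i).contDiffAt (hop.mem_nhds hz)).differentiableAt (by simp))
    exact h1.comp z (contDiff_baseP.differentiable (by simp)).differentiableAt
  · exact differentiableAt_apply (Sum.inr k) z

theorem Loc.rho_affHom (α : Loc P F) {e' : OpenPartialHomeomorph M (Fin r → ℝ)}
    (he' : e' ∈ atlas (Fin r → ℝ) M) {W : Opens (JJ r → ℝ)} (h : Good α e' W) :
    IsAffHom α.S (locAff P e' he' W h.target) (α.ρ h) := by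
  obtain ⟨A, b, hA, hb⟩ := h.affine
  refine model_std ⊤ W α.s α.τ α.hτ α.hsτ α.φ α.K α.hK _ _ (α.θ e') (α.θ_smooth h)
    (fun _ _ => trivial) (mmorN A) (Sum.elim b 0) (mmorN_det A hA) ?_ ?_
  · rintro ⟨z, hz⟩ a
    have h1 := α.hφ (e'.symm (baseP z)) (h.mem z hz) (fibP z) (h.small z hz) a
    rw [hb z hz, mmor_kap] at h1
    exact h1
  · rintro ⟨z, hz⟩ i j
    set κ : (JJ r → ℝ) → (JJ r → ℝ) := fun y => pt (A.mulVec (baseP y) + b) (fibP y) with hκ
    have hκa : ∀ᶠ y in 𝓝 z, ∀ a, κ y a = ∑ b', mmorN A a b' * y b' + (Sum.elim b 0 : JJ r → ℝ) a :=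
      Filter.Eventually.of_forall fun y a => mmor_kap A b y a
    have hzO : e'.symm (baseP z) ∈ α.O := h.mem z hz
    have hbz : α.e (e'.symm (baseP z)) = A.mulVec (baseP z) + b := hb z hz
    have hκz : baseP (κ z) ∈ α.e.target ∩ α.e.symm ⁻¹' α.O := by
      change A.mulVec (baseP z) + b ∈ _
      rw [← hbz]
      refine ⟨α.e.map_source (α.hOe hzO), ?_⟩
      change α.e.symm (α.e (e'.symm (baseP z))) ∈ α.O
      rw [α.e.left_inv (α.hOe hzO)]
      exact hzO
    have hcomp : ∀ i, ∀ᶠ y in 𝓝 z, α.θ e' y i = (fun y => α.θ α.e y i) (κ y) := by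
      intro i
      filter_upwards [W.isOpen.mem_nhds hz] with y hy
      have h1 : α.e.symm (A.mulVec (baseP y) + b) = e'.symm (baseP y) := by
        rw [← hb y hy, α.e.left_inv (α.hOe (h.mem y hy))]
      change pt (α.ψ (e'.symm (baseP y))) (fibP y) i
        = pt (α.ψ (α.e.symm (A.mulVec (baseP y) + b))) (fibP y) i
      rw [h1]
    have hpd : ∀ i a, pd a (fun y => α.θ e' y i) z
        = ∑ b', mmorN A b' a * pd b' (fun y => α.θ α.e y i) (κ z) := fun i a =>
      mmor_pd_comp (mmorN A) _ κ _ (fun y => α.θ α.e y i) z hκa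
        (mmor_theta_diff α (κ z) hκz i) (hcomp i) a
    have hev : ∀ᶠ y in 𝓝 (baseP z), α.e (e'.symm y) = A.mulVec y + b := by
      filter_upwards [mmor_eventually W z hz] with y hy
      exact hb _ hy
    have hPh : ∀ c d, Phat (P.comp α.e) c d (κ z)
        = ∑ i, ∑ j, (mmorN A c i * mmorN A d j) * Phat (P.comp e') i j z := fun c d =>
      mmor_Phat P α.e e' α.he he' A b z (h.target z hz) (α.hOe hzO) hev c d
    have h3 := α.hP (baseP (κ z)) hκz (fibP z) i j
    have h4 : pt (baseP (κ z)) (fibP z) = κ z := rfl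
    rw [h4] at h3
    rw [← h3]
    change ∑ a, ∑ b', Phat (P.comp e') a b' z * pd a (fun y => α.θ e' y i) z
      * pd b' (fun y => α.θ e' y j) z
      = ∑ a, ∑ b', Phat (P.comp α.e) a b' (κ z) * pd a (fun y => α.θ α.e y i) (κ z)
      * pd b' (fun y => α.θ α.e y j) (κ z)
    simp only [hpd, hPh]
    exact mmor_four (fun a b' => Phat (P.comp e') a b' z) (mmorN A)
      (fun c => pd c (fun y => α.θ α.e y i) (κ z)) (fun c => pd c (fun y => α.θ α.e y j) (κ z))

end E214
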