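import Pool.Agent.Work.MP_e214ac_gt.M.Dat
import Pool.Agent.Work.MP_e214ac_gt.R.AffHoms

/-!
# Module M/MNat: the data on adapted open sets are compatible with changes of the chart

Proof.  On `W₂` the map `kap e₁ e₂` is affine (`ht.affine`), so it is smooth on `W₂`
(`ContDiffOn.congr`); `r = Sm.comp (kap e₁ e₂) _ ht.maps`.
* `IsAffHom`: `std_std` with `N = A ⊕ 1`; the condition on `P` is `P.compat e₂ e₁`: for
  `p = e₂.symm (baseP z)`, `P.comp e₁ i j (e₁ p) = ∑ A_ia A_jb P.comp e₂ a b (baseP z)` because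
  `y ↦ e₁ (e₂.symm y)` is affine near `baseP z` (`W₂` is open) with linear part `A`.
* `IsPull`: `r ∘ α.ρ h₁ = α.ρ h₂`, because `α.θ e₁ (kap e₁ e₂ z) = α.θ e₂ z` for `z ∈ W₂`
  (`e₁.left_inv`).  `pull_exists` gives `D''` with `IsPull r (α.dat he₁ h₁) D''`; by `pull_comp`
  `IsPull (r.comp (α.ρ h₁)) α.D D''`, and `pull_unique` gives `D'' = α.dat he₂ h₂`.
-/

set_option autoImplicit false

open scoped ContDiff Topology

namespace E214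

open TopologicalSpace

variable {r : ℕ} {M : Type} [TopologicalSpace M] [ChartedSpace (Fin r → ℝ) M]
  {P : BivectorField r M} {n : ℕ} {F : List (ℝ × Diagram n)}

theorem exists_trans_hom (e₁ e₂ : OpenPartialHomeomorph M (Fin r → ℝ))
    (he₁ : e₁ ∈ atlas (Fin r → ℝ) M) (he₂ : e₂ ∈ atlas (Fin r → ℝ) M)
    (W₁ W₂ : Opens (JJ r → ℝ)) (hW₁ : ∀ z ∈ W₁, baseP z ∈ e₁.target)
    (hW₂ : ∀ z ∈ W₂, baseP z ∈ e₂.target) (ht : Trans e₁ e₂ W₁ W₂) :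
    ∃ ρ : Sm W₁ →ₐ[ℝ] Sm W₂, (∀ (f : Sm W₁) (z : W₂), (ρ f).1 z = f.1 ⟨kap e₁ e₂ z, ht.maps z z.2⟩) ∧
      IsAffHom (locAff P e₁ he₁ W₁ hW₁) (locAff P e₂ he₂ W₂ hW₂) ρ ∧
      ∀ (α : Loc P F) (h₁ : Good α e₁ W₁) (h₂ : Good α e₂ W₂),
        IsPull ρ (α.dat he₁ h₁) (α.dat he₂ h₂) := by
  obtain ⟨A, b, hA, hb⟩ := ht.affine
  have hk : ∀ z ∈ W₂, ∀ a, kap e₁ e₂ z a
      = ∑ b', mmorN A a b' * z b' + (Sum.elim b 0 : JJ r → ℝ) a := by
    intro z hz a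
    unfold kap
    rw [hb z hz, mmor_kap]
  have hκ : ContDiffOn ℝ ∞ (kap e₁ e₂) (W₂ : Set (JJ r → ℝ)) := by
    refine contDiffOn_pi.2 fun a => ?_
    have h1 : ContDiff ℝ ∞ (fun z : JJ r → ℝ =>
        ∑ b', mmorN A a b' * z b' + (Sum.elim b 0 : JJ r → ℝ) a) :=
      (ContDiff.sum fun b' _ => contDiff_const.mul (contDiff_apply ℝ ℝ b')).add contDiff_const
    exact h1.contDiffOn.congr fun z hz => hk z hz a
  have haff : IsAffHom (locAff P e₁ he₁ W₁ hW₁) (locAff P e₂ he₂ W₂ hW₂)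
      (Sm.comp (kap e₁ e₂) hκ ht.maps) := by
    refine std_std W₁ W₂ _ _ _ _ (kap e₁ e₂) hκ ht.maps (mmorN A) (Sum.elim b 0)
      (mmorN_det A hA) hk ?_
    rintro ⟨z, hz⟩ c d
    have hev : ∀ᶠ y in 𝓝 (baseP z), e₁ (e₂.symm y) = A.mulVec y + b := by
      filter_upwards [mmor_eventually W₂ z hz] with y hy
      exact hb _ hy
    have h1 := mmor_Phat P e₁ e₂ he₁ he₂ A b z (hW₂ z hz) (ht.source z hz) hev c d
    have h2 : kap e₁ e₂ z = pt (A.mulVec (baseP z) + b) (fibP z) := by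
      unfold kap
      rw [hb z hz]
    change Phat (P.comp e₁) c d (kap e₁ e₂ z) = _
    rw [h2, h1]
    rfl
  refine ⟨Sm.comp (kap e₁ e₂) hκ ht.maps, fun f z => rfl, haff, fun α h₁ h₂ => ?_⟩
  obtain ⟨D'', hD''⟩ := pull_exists (mor_of_affHom haff F) (α.dat he₁ h₁)
  have hcomp : (Sm.comp (kap e₁ e₂) hκ ht.maps).comp (α.ρ h₁) = α.ρ h₂ := by
    refine AlgHom.ext fun f => Sm.ext ?_
    rintro ⟨z, hz⟩
    change f.1 ⟨α.θ e₁ (kap e₁ e₂ z), trivial⟩ = f.1 ⟨α.θ e₂ z, trivial⟩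
    have h3 : α.θ e₁ (kap e₁ e₂ z) = α.θ e₂ z := by
      change pt (α.ψ (e₁.symm (e₁ (e₂.symm (baseP z))))) (fibP z)
        = pt (α.ψ (e₂.symm (baseP z))) (fibP z)
      rw [e₁.left_inv (ht.source z hz)]
    exact congrArg f.1 (Subtype.ext h3)
  have h4 := pull_comp (α.dat_pull he₁ h₁) hD''
  rw [hcomp] at h4
  have h5 : D'' = α.dat he₂ h₂ := pull_unique (α.rho_mor he₂ h₂) h4 (α.dat_pull he₂ h₂)
  rw [← h5]
  exact hD''

end E214
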