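import Pool.Agent.Work.MP_e214ac_gt.G.Scale
import Pool.Agent.Work.MP_e214ac_gt.G.Stab
import Pool.Agent.Work.MP_e214ac_gt.RDefs

/-!
# Module M/Parts: the homogeneous parts of a universal symmetry are universal symmetries

`part F n` is the sublist of the diagrams of `F` with `n` vertices.

Proof.
* `eval_parts`: induction on the list `F`; for `c = (x, ⟨m, D⟩)` the list `part (c :: F) n` is
  `(x, D) :: part F n` if `m = n` and `part F n` otherwise; `∑_{n < N}` picks `n = m`.
* `isSymHom_part`: Let `σ : J ≃ Fin (card J)`.  For `P` on `U ⊆ ℝ^J` let `r = card J`,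
  `U' = {y' | y' ∘ σ ∈ U}`, `P' a b y' = P (σ.symm a) (σ.symm b) (y' ∘ σ)`.  `pd`, `schouten`,
  `evalHom` (`evalHom_stab` with `k = σ`, `Z = univ`, and `evalHom_rel` for `f' y' = f (y' ∘ σ)`; the
  relation `f' = f ∘ (· ∘ σ)` is compatible with `pd` for ALL functions because `y' ↦ y' ∘ σ` is a
  continuous linear equivalence) are transported, so it is enough to treat `J = Fin r`.
  For `t : ℝ` the bivector `t P` is Poisson on `U`, and (`evalHom_scale` with the constant function
  `t`, `pd a (t f) = t pd a f` for all `f`, `fderiv_const_mul_field`-type lemma, or restrict to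
  `t ≠ 0`) `F.eval pd (t P) = ∑_{n < N} t^n evalHom (part F n) pd P`, so for `y ∈ U`
  `0 = schouten (t P) (F(t P)) i j k y = ∑_{n < N} t^(n+1) schouten P ((part F n)(P)) i j k y`
  (`schouten` is additive in the second argument for functions that are differentiable at `y`;
  the values of the diagrams are smooth on `U`).  A polynomial in `t` that vanishes for all `t ≠ 0` has
  zero coefficients.
* `evalHom_contDiffOn`: the values are smooth on `U` (`evalHom_rel`-style induction: use `evalHom_rel`
  with `rel f f' := ContDiffOn ℝ ∞ f U`).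
-/

set_option autoImplicit false

open scoped ContDiff

namespace E214

/-- the homogeneous part of degree `n` -/
def part (F : Formula) (n : ℕ) : List (ℝ × Diagram n) :=
  F.filterMap fun c => if h : c.2.1 = n then some (c.1, h ▸ c.2.2) else none

private theorem pa_cons {J : Type} [Fintype J] [DecidableEq J] {R : Type} [CommRing R]
    [Algebra ℝ R] (c : ℝ × (Σ n : ℕ, Diagram n)) (F : Formula) (n : ℕ) (d : J → R → R)
    (P : J → J → R) (i j : J) : evalHom (part (c :: F) n) d P i j
      = (if c.2.1 = n then c.1 • (c.2.2.eval d P i j - c.2.2.eval d P j i) else 0)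
        + evalHom (part F n) d P i j := by
  obtain ⟨x, m, D⟩ := c
  by_cases h : m = n
  · subst h
    have h1 : part ((x, ⟨m, D⟩) :: F) m = (x, D) :: part F m := by
      unfold part
      rw [List.filterMap_cons]
      simp
    rw [h1, if_pos rfl]
    simp [evalHom]
  · have h1 : part ((x, ⟨m, D⟩) :: F) n = part F n := by
      unfold part
      rw [List.filterMap_cons]
      simp [h]
    rw [h1, if_neg h, zero_add]

theorem eval_parts {J : Type} [Fintype J] [DecidableEq J] {R : Type} [CommRing R] [Algebra ℝ R]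
    (F : Formula) (N : ℕ) (hN : ∀ c ∈ F, c.2.1 < N) (d : J → R → R) (P : J → J → R) (i j : J) :
    F.eval d P i j = ∑ n ∈ Finset.range N, evalHom (part F n) d P i j := by
  induction F with
  | nil => simp [Formula.eval, part, evalHom]
  | cons c F ih =>
    simp only [pa_cons, Finset.sum_add_distrib]
    rw [← ih fun c' hc' => hN c' (List.mem_cons_of_mem c hc'), Finset.sum_ite_eq,
      if_pos (Finset.mem_range.2 (hN c List.mem_cons_self))]
    simp [Formula.eval]

theorem part_eq_nil (F : Formula) (n : ℕ) (h : ∀ c ∈ F, c.2.1 ≠ n) : part F n = [] := by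
  unfold part
  rw [List.filterMap_eq_nil_iff]
  intro c hc
  simp [h c hc]

theorem evalHom_contDiffOn {J : Type} [Fintype J] [DecidableEq J] {n : ℕ}
    (F : List (ℝ × Diagram n)) (U : Set (J → ℝ)) (hU : IsOpen U)
    (P : J → J → (J → ℝ) → ℝ) (hP : ∀ i j, ContDiffOn ℝ ∞ (P i j) U) (i j : J) :
    ContDiffOn ℝ ∞ (evalHom F pd P i j) U := by
  exact evalHom_rel (R := (J → ℝ) → ℝ) (R' := (J → ℝ) → ℝ) (fun f _ => ContDiffOn ℝ ∞ f U)
    contDiffOn_const contDiffOn_const (fun _ _ _ _ h1 h2 => h1.add h2)
    (fun _ _ _ _ h1 h2 => h1.mul h2) (fun c _ _ h => contDiffOn_const.smul h) pd pd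
    (fun a f _ h => contDiffOn_fderiv_apply (W := ⟨U, hU⟩) h (Pi.single a 1)) P P hP F i j

section transport

variable {J : Type} [Fintype J] [DecidableEq J] {r : ℕ} (σ : J ≃ Fin r)

private noncomputable def paL : (Fin r → ℝ) ≃L[ℝ] (J → ℝ) :=
  (LinearEquiv.funCongrLeft ℝ ℝ σ).toContinuousLinearEquiv

private theorem paL_apply (y : Fin r → ℝ) (a : J) : paL σ y a = y (σ a) := rfl

private theorem pa_pd (f : (J → ℝ) → ℝ) (c : Fin r) : pd c (f ∘ paL σ) = pd (σ.symm c) f ∘ paL σ := by
  funext y
  change fderiv ℝ (f ∘ paL σ) y (Pi.single c 1) = fderiv ℝ f (paL σ y) (Pi.single (σ.symm c) 1)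
  rw [(paL σ).comp_right_fderiv]
  change fderiv ℝ f (paL σ y) (paL σ (Pi.single c 1)) = _
  congr 1
  funext a
  rw [paL_apply, Pi.single_apply, Pi.single_apply]
  by_cases h : a = σ.symm c
  · rw [if_pos h, if_pos (by rw [h, Equiv.apply_symm_apply])]
  · rw [if_neg h, if_neg (fun h' => h (by rw [← h', Equiv.symm_apply_apply]))]

private theorem pa_evalHom {n : ℕ} (F : List (ℝ × Diagram n)) (P : J → J → (J → ℝ) → ℝ)
    (i j : Fin r) : evalHom F pd (fun a b => P (σ.symm a) (σ.symm b) ∘ paL σ) i j
      = evalHom F pd P (σ.symm i) (σ.symm j) ∘ paL σ := by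
  have h1 := evalHom_stab (R := (Fin r → ℝ) → ℝ) σ σ.injective F pd
    (fun a => by
      funext y
      change fderiv ℝ (0 : (Fin r → ℝ) → ℝ) y (Pi.single a 1) = 0
      simp)
    (fun a b => P (σ.symm a) (σ.symm b) ∘ paL σ) Set.univ (fun _ _ => trivial)
    (fun _ _ _ => trivial) (fun c hc => absurd ⟨σ.symm c, σ.apply_symm_apply c⟩ hc)
    (σ.symm i) (σ.symm j)
  rw [Equiv.apply_symm_apply, Equiv.apply_symm_apply] at h1
  rw [h1]
  exact (evalHom_rel (R := (J → ℝ) → ℝ) (R' := (Fin r → ℝ) → ℝ) (fun f f' => f' = f ∘ paL σ)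
    rfl rfl (fun _ _ _ _ h1 h2 => by rw [h1, h2]; rfl) (fun _ _ _ _ h1 h2 => by rw [h1, h2]; rfl)
    (fun c _ _ h => by rw [h]; rfl) pd (fun a => pd (σ a))
    (fun a f f' h => by
      subst h
      rw [pa_pd, Equiv.symm_apply_apply]) P
    (fun a b => P (σ.symm (σ a)) (σ.symm (σ b)) ∘ paL σ)
    (fun a b => by rw [Equiv.symm_apply_apply, Equiv.symm_apply_apply]) F _ _)

private theorem pa_schouten (P Q : J → J → (J → ℝ) → ℝ) (i j k : Fin r) :
    schouten (fun a b => P (σ.symm a) (σ.symm b) ∘ paL σ)
      (fun a b => Q (σ.symm a) (σ.symm b) ∘ paL σ) i j k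
      = schouten P Q (σ.symm i) (σ.symm j) (σ.symm k) ∘ paL σ := by
  funext y
  simp only [schouten, Finset.sum_apply, Function.comp_apply, Pi.add_apply, Pi.mul_apply, pa_pd]
  exact Fintype.sum_equiv σ.symm _ _ fun l => rfl

end transport

private theorem pa_scale_pd {r : ℕ} (t : ℝ) (a : Fin r) (f : (Fin r → ℝ) → ℝ) :
    pd a ((fun _ => t) * f) = (fun _ => t) * pd a f := by
  have h1 : ((fun _ => t) * f : (Fin r → ℝ) → ℝ) = t • f := rfl
  rw [h1]
  funext y
  change fderiv ℝ (t • f) y (Pi.single a 1) = t * fderiv ℝ f y (Pi.single a 1)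
  rw [fderiv_const_smul_field]
  rfl

private theorem pa_fin (F : Formula) (hF : IsSymmetry F) (n r : ℕ) :
    IsSymHom (Fin r) (part F n) := by
  intro U P hU hP i j k y hy
  obtain ⟨N, hN, hnN⟩ : ∃ N : ℕ, (∀ c ∈ F, c.2.1 < N) ∧ n < N := by
    refine ⟨(F.map fun c => c.2.1).sum + n + 1, fun c hc => ?_, by omega⟩
    have h1 : c.2.1 ≤ (F.map fun c => c.2.1).sum :=
      List.single_le_sum (by simp) _ (List.mem_map_of_mem (f := fun c => c.2.1) hc)
    omega
  have hdE : ∀ m a b, DifferentiableAt ℝ (evalHom (part F m) pd P a b) y := fun m a b =>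
    ((evalHom_contDiffOn (part F m) U hU P hP.1 a b).contDiffAt
      (hU.mem_nhds hy)).differentiableAt (by simp)
  have key : ∀ t : ℝ, ∑ m ∈ Finset.range N, t ^ (m + 1) *
      schouten P (fun a b => evalHom (part F m) pd P a b) i j k y = 0 := by
    intro t
    have hPt : IsPoissonOn (fun a b => (fun _ => t) * P a b) U := by
      refine ⟨fun a b => contDiffOn_const.mul (hP.1 a b), fun a b z hz => ?_,
        fun i j k z hz => ?_⟩
      · change t * P a b z = - (t * P b a z)
        rw [hP.2.1 a b z hz]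
        ring
      · have h0 := hP.2.2 i j k z hz
        have h1 : schouten (fun a b => (fun _ => t) * P a b) (fun a b => (fun _ => t) * P a b)
            i j k z = t * t * schouten P P i j k z := by
          simp only [schouten, Finset.sum_apply, Pi.add_apply, Pi.mul_apply, pa_scale_pd,
            Finset.mul_sum]
          exact Finset.sum_congr rfl fun l _ => by ring
        rw [h1, h0, mul_zero]
    have h1 := hF r U _ hU hPt i j k y hy
    have h2 : (fun a b => F.eval pd (fun a b => (fun _ => t) * P a b) a b)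
        = fun a b => fun z => ∑ m ∈ Finset.range N, t ^ m * evalHom (part F m) pd P a b z := by
      funext a b z
      rw [eval_parts F N hN, Finset.sum_apply]
      refine Finset.sum_congr rfl fun m _ => ?_
      rw [evalHom_scale (R := (Fin r → ℝ) → ℝ) (part F m) pd (fun _ => t)
        (fun a f => pa_scale_pd t a f) P a b]
      rfl
    rw [h2] at h1
    have h3 : ∀ l a b, pd l (fun z => ∑ m ∈ Finset.range N, t ^ m *
        evalHom (part F m) pd P a b z) y
        = ∑ m ∈ Finset.range N, t ^ m * pd l (evalHom (part F m) pd P a b) y := by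
      intro l a b
      have h4 : HasFDerivAt (fun z => ∑ m ∈ Finset.range N, t ^ m *
          evalHom (part F m) pd P a b z) (∑ m ∈ Finset.range N, t ^ m •
            fderiv ℝ (evalHom (part F m) pd P a b) y) y :=
        HasFDerivAt.fun_sum fun m _ => (hdE m a b).hasFDerivAt.const_mul (t ^ m)
      change fderiv ℝ (fun z => ∑ m ∈ Finset.range N, t ^ m *
          evalHom (part F m) pd P a b z) y _ = _
      rw [h4.fderiv]
      simp [pd]
    rw [← h1]
    simp only [schouten, Finset.sum_apply, Pi.add_apply, Pi.mul_apply, pa_scale_pd, h3,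
      Finset.mul_sum, Finset.sum_mul]
    rw [Finset.sum_comm]
    refine Finset.sum_congr rfl fun l _ => ?_
    simp only [← Finset.sum_add_distrib]
    exact Finset.sum_congr rfl fun m _ => by ring
  have hpoly : ∑ m ∈ Finset.range N, Polynomial.monomial (m + 1)
      (schouten P (fun a b => evalHom (part F m) pd P a b) i j k y) = 0 := by
    refine Polynomial.funext fun t => ?_
    rw [Polynomial.eval_finsetSum, Polynomial.eval_zero, ← key t]
    exact Finset.sum_congr rfl fun m _ => by rw [Polynomial.eval_monomial, mul_comm]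
  have h5 := congrArg (fun p => Polynomial.coeff p (n + 1)) hpoly
  simp only [Polynomial.finsetSum_coeff, Polynomial.coeff_monomial, Polynomial.coeff_zero,
    Nat.add_right_cancel_iff] at h5
  rw [Finset.sum_ite_eq', if_pos (Finset.mem_range.2 hnN)] at h5
  exact h5

theorem isSymHom_part (F : Formula) (hF : IsSymmetry F) (n : ℕ) (J : Type) [Fintype J]
    [DecidableEq J] : IsSymHom J (part F n) := by
  intro U P hU hP i j k y hy
  have σ : J ≃ Fin (Fintype.card J) := Fintype.equivFin J
  have h1 : IsPoissonOn (fun a b => P (σ.symm a) (σ.symm b) ∘ paL σ) (paL σ ⁻¹' U) := by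
    refine ⟨fun a b => (hP.1 _ _).comp (paL σ).contDiff.contDiffOn fun z hz => hz,
      fun a b z hz => hP.2.1 _ _ _ hz, fun a b c z hz => ?_⟩
    rw [pa_schouten σ P P]
    exact hP.2.2 _ _ _ _ hz
  have h2 := pa_fin F hF n (Fintype.card J) (paL σ ⁻¹' U) _
    (hU.preimage (paL σ).continuous) h1 (σ i) (σ j) (σ k) ((paL σ).symm y)
    (show paL σ ((paL σ).symm y) ∈ U by rw [ContinuousLinearEquiv.apply_symm_apply]; exact hy)
  have h3 : (fun a b => evalHom (part F n) pd (fun a b => P (σ.symm a) (σ.symm b) ∘ paL σ) a b)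
      = fun a b => (fun a b => evalHom (part F n) pd P a b) (σ.symm a) (σ.symm b) ∘ paL σ := by
    funext a b
    exact pa_evalHom σ (part F n) P a b
  rw [h3, pa_schouten σ P (fun a b => evalHom (part F n) pd P a b), Function.comp_apply,
    ContinuousLinearEquiv.apply_symm_apply, Equiv.symm_apply_apply, Equiv.symm_apply_apply,
    Equiv.symm_apply_apply] at h2
  exact h2

end E214
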