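import Pool.Agent.Work.MP_e214ac_gt.Stmt

/-!
# Module M/SumX: sums of vector fields

Proof.  `Z.comp e i = ∑ n ∈ s, (X n).comp e i` (pointwise); smoothness and the transformation rule are
additive.  `schoutenVec P` is additive in vector fields that are differentiable at the point
(`fderiv_sum`, the components are smooth on the open set `e.target`).
-/

set_option autoImplicit false

open scoped ContDiff Topology

namespace E214

variable {r : ℕ} {M : Type} [TopologicalSpace M] [ChartedSpace (Fin r → ℝ) M]

theorem exists_sum (P : BivectorField r M) (s : Finset ℕ) (X : ℕ → VectorField r M) :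
    ∃ Z : VectorField r M, ∀ e ∈ atlas (Fin r → ℝ) M, ∀ i j, ∀ y ∈ e.target,
      schoutenVec (P.comp e) (Z.comp e) i j y
        = ∑ n ∈ s, schoutenVec (P.comp e) ((X n).comp e) i j y := by
  refine ⟨⟨fun e i y => ∑ n ∈ s, (X n).comp e i y, ?_, ?_⟩, ?_⟩
  · intro e he i
    exact ContDiffOn.sum fun n _ => (X n).smooth e he i
  · intro e he e' he' p hp i
    simp only [Finset.mul_sum]
    rw [Finset.sum_comm]
    exact Finset.sum_congr rfl fun n _ => (X n).compat e he e' he' p hp i
  · intro e he i j y hy
    have hd : ∀ l i, pd l (fun y => ∑ n ∈ s, (X n).comp e i y) y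
        = ∑ n ∈ s, pd l ((X n).comp e i) y := by
      intro l i
      have h1 : HasFDerivAt (fun y => ∑ n ∈ s, (X n).comp e i y)
          (∑ n ∈ s, fderiv ℝ ((X n).comp e i) y) y :=
        HasFDerivAt.fun_sum fun n _ => ((((X n).smooth e he i).contDiffAt
          (e.open_target.mem_nhds hy)).differentiableAt (by simp)).hasFDerivAt
      change fderiv ℝ (fun y => ∑ n ∈ s, (X n).comp e i y) y _ = _
      rw [h1.fderiv]
      simp [pd]
    simp only [schoutenVec, Finset.sum_apply, Pi.sub_apply, Pi.add_apply, Pi.mul_apply]
    rw [Finset.sum_comm]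
    refine Finset.sum_congr rfl fun l _ => ?_
    rw [hd, hd, Finset.mul_sum, Finset.mul_sum, Finset.sum_mul, ← Finset.sum_add_distrib,
      ← Finset.sum_sub_distrib]

end E214
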