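import Pool.Agent.Work.MP_e214ac_gt.M.MNat
import Pool.Agent.Work.MP_e214ac_gt.M.MGood

/-!
# Module M/XFun: the local vector field of `α`

`IsXFun α X`: `X e' i` is the `i`-th component in the chart `e'` of the local primitive of `α`,
restricted to `w = 0`.

Proof of `exists_xfun`.  For a chart `e'` and `y` with `y ∈ e'.target`, `e'.symm y ∈ α.O` choose `W` by
`exists_good` and define `X e' i y` by the formula (zero elsewhere, and for `e'` outside the atlas).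
Independence of `W`: if `W, W'` are good for `α` in the same chart and contain `pt y 0`, let
`W'' = W ⊓ W'`; `kap e' e'` is the identity on `W''` (`e'.right_inv`), `Trans e' e' W W''` with
`A = 1, b = 0`; `exists_trans_hom` gives the restriction `ρ`, `pull_X` (with `mor_of_affHom`) gives
`(α.dat W'').X (ρ f) = ρ ((α.dat W).X f)`; for `f = smx (inl i)`, `ρ f = smx (inl i)`; evaluate at
`pt y 0`.  The same for `W'`.
`xfun_smooth`: locally `X e' i y = ((α.dat W).X (smx (inl i))) (pt y 0)`.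
`xfun_compat`: `exists_good` in the chart `e₁` at `p` (`W₁`), `exists_good` and `exists_trans` in the
chart `e₂` (`W₂`), `ρ` from `exists_trans_hom`.  On `W₂`
`ρ (smx (inl i)) = ∑_a A_ia • smx (inl a) + b_i` (`kap e₁ e₂` is affine), so `pull_X` gives
`∑_a A_ia (α.dat W₂).X (smx (inl a)) = ρ ((α.dat W₁).X (smx (inl i)))`; evaluate at `pt (e₂ p) 0`, and
`pd a (fun z => e₁ (e₂.symm z) i) (e₂ p) = A i a`.
-/

set_option autoImplicit false

open scoped ContDiff Topology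

namespace E214

open TopologicalSpace

variable {r : ℕ} {M : Type} [TopologicalSpace M] [ChartedSpace (Fin r → ℝ) M]
  {P : BivectorField r M} {n : ℕ} {F : List (ℝ × Diagram n)}

/-- `X` is the local vector field of `α` (components in the charts) -/
def IsXFun (α : Loc P F)
    (X : OpenPartialHomeomorph M (Fin r → ℝ) → Fin r → (Fin r → ℝ) → ℝ) : Prop :=
  ∀ (e' : OpenPartialHomeomorph M (Fin r → ℝ)) (he' : e' ∈ atlas (Fin r → ℝ) M)
    (W : Opens (JJ r → ℝ)) (h : Good α e' W) (i : Fin r) (y : Fin r → ℝ) (hy : pt y 0 ∈ W),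
    X e' i y = ((α.dat he' h).X (smx (Sum.inl i))).1 ⟨pt y 0, hy⟩

/-- the restriction to a smaller open set in the same chart is a change of the chart -/
theorem xfun_trans_self (e' : OpenPartialHomeomorph M (Fin r → ℝ)) (W W₂ : Opens (JJ r → ℝ))
    (hW : W₂ ≤ W) (ht : ∀ z ∈ W, baseP z ∈ e'.target) : Trans e' e' W W₂ where
  target z hz := ht z (hW hz)
  source z hz := e'.map_target (ht z (hW hz))
  maps z hz := by
    have h1 : kap e' e' z = z := by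
      unfold kap
      rw [e'.right_inv (ht z (hW hz)), pt_base_fib]
    rw [h1]
    exact hW hz
  affine := ⟨1, 0, by rw [Matrix.det_one]; exact isUnit_one, fun z hz => by
    rw [e'.right_inv (ht z (hW hz)), Matrix.one_mulVec, add_zero]⟩

theorem xfun_kap_self (e' : OpenPartialHomeomorph M (Fin r → ℝ)) (z : JJ r → ℝ)
    (hz : baseP z ∈ e'.target) : kap e' e' z = z := by
  unfold kap
  rw [e'.right_inv hz, pt_base_fib]

private theorem xfun_restr (α : Loc P F) (e' : OpenPartialHomeomorph M (Fin r → ℝ))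
    (he' : e' ∈ atlas (Fin r → ℝ) M) (W W₂ : Opens (JJ r → ℝ)) (hW : W₂ ≤ W)
    (h : Good α e' W) (h₂ : Good α e' W₂) (a : JJ r) (z : JJ r → ℝ) (hz : z ∈ W₂) :
    ((α.dat he' h₂).X (smx a)).1 ⟨z, hz⟩ = ((α.dat he' h).X (smx a)).1 ⟨z, hW hz⟩ := by
  obtain ⟨ρ, hρ, haff, hpull⟩ := exists_trans_hom (P := P) (F := F) e' e' he' he' W W₂ h.target
    h₂.target (xfun_trans_self e' W W₂ hW h.target)
  have h1 := pull_X (mor_of_affHom haff F) (hpull α h h₂) (smx a)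
  have h2 : ρ (smx a) = smx a := by
    refine Sm.ext ?_
    rintro ⟨x, hx⟩
    rw [hρ]
    change kap e' e' x a = x a
    rw [xfun_kap_self e' x (h₂.target x hx)]
  rw [h2] at h1
  rw [h1, hρ]
  exact congrArg _ (Subtype.ext (xfun_kap_self e' z (h₂.target z hz)))

private theorem xfun_indep (α : Loc P F) (e' : OpenPartialHomeomorph M (Fin r → ℝ))
    (he' : e' ∈ atlas (Fin r → ℝ) M) (W W' : Opens (JJ r → ℝ))
    (h : Good α e' W) (h' : Good α e' W') (a : JJ r) (z : JJ r → ℝ) (hz : z ∈ W) (hz' : z ∈ W') :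
    ((α.dat he' h).X (smx a)).1 ⟨z, hz⟩ = ((α.dat he' h').X (smx a)).1 ⟨z, hz'⟩ := by
  have h2 : Good α e' (W ⊓ W') := h.mono inf_le_left
  have h3 : z ∈ W ⊓ W' := ⟨hz, hz'⟩
  rw [← xfun_restr α e' he' W (W ⊓ W') inf_le_left h h2 a z h3,
    ← xfun_restr α e' he' W' (W ⊓ W') inf_le_right h' h2 a z h3]

theorem exists_xfun (hM : IsAffineManifold r M) (α : Loc P F) :
    ∃ X : OpenPartialHomeomorph M (Fin r → ℝ) → Fin r → (Fin r → ℝ) → ℝ, IsXFun α X := by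
  classical
  refine ⟨fun e' i y => if h : ∃ (he' : e' ∈ atlas (Fin r → ℝ) M) (W : Opens (JJ r → ℝ))
    (_ : Good α e' W), pt y 0 ∈ W then
      ((α.dat h.choose h.choose_spec.choose_spec.choose).X (smx (Sum.inl i))).1
        ⟨pt y 0, h.choose_spec.choose_spec.choose_spec⟩ else 0, ?_⟩
  intro e' he' W hg i y hy
  have h : ∃ (he' : e' ∈ atlas (Fin r → ℝ) M) (W : Opens (JJ r → ℝ))
    (_ : Good α e' W), pt y 0 ∈ W := ⟨he', W, hg, hy⟩
  simp only [dif_pos h]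
  exact xfun_indep α e' he' _ _ _ _ _ _ _ _

theorem xfun_smooth (hM : IsAffineManifold r M) (α : Loc P F)
    (X : OpenPartialHomeomorph M (Fin r → ℝ) → Fin r → (Fin r → ℝ) → ℝ) (hX : IsXFun α X)
    (e' : OpenPartialHomeomorph M (Fin r → ℝ)) (he' : e' ∈ atlas (Fin r → ℝ) M) (i : Fin r) :
    ContDiffOn ℝ ∞ (X e' i) (e'.target ∩ e'.symm ⁻¹' α.O) := by
  rintro y ⟨hy, hyO⟩
  obtain ⟨W, -, hyW, hg⟩ := exists_good hM α e' he' (e'.symm y) hyO (e'.map_target hy) ⊤ trivial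
  rw [e'.right_inv hy] at hyW
  have h1 : ContDiffAt ℝ ∞ (fun y => ext0 W ((α.dat he' hg).X (smx (Sum.inl i))).1 (pt y 0)) y := by
    have h2 : ContDiffAt ℝ ∞ (ext0 W ((α.dat he' hg).X (smx (Sum.inl i))).1) (pt y 0) :=
      ((α.dat he' hg).X (smx (Sum.inl i))).2.contDiffAt (W.isOpen.mem_nhds hyW)
    have h3 : ContDiff ℝ ∞ (fun y : Fin r → ℝ => pt y 0) := by
      refine contDiff_pi.2 fun a => ?_
      rcases a with i | k
      · exact contDiff_apply ℝ ℝ i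
      · exact contDiff_const
    exact h2.comp y h3.contDiffAt
  refine (h1.congr_of_eventuallyEq ?_).contDiffWithinAt
  have h4 : ∀ᶠ x in 𝓝 y, pt x 0 ∈ W :=
    (mmor_pt_continuous 0).continuousAt.eventually_mem (W.isOpen.mem_nhds hyW)
  filter_upwards [h4] with x hx
  rw [hX e' he' W hg i x hx, ext0_of_mem _ hx]

theorem xfun_compat (hM : IsAffineManifold r M) (α : Loc P F)
    (X : OpenPartialHomeomorph M (Fin r → ℝ) → Fin r → (Fin r → ℝ) → ℝ) (hX : IsXFun α X)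
    (e₁ e₂ : OpenPartialHomeomorph M (Fin r → ℝ))
    (he₁ : e₁ ∈ atlas (Fin r → ℝ) M) (he₂ : e₂ ∈ atlas (Fin r → ℝ) M) (p : M)
    (hp₁ : p ∈ e₁.source) (hp₂ : p ∈ e₂.source) (hp : p ∈ α.O) (i : Fin r) :
    X e₁ i (e₁ p) = ∑ a, pd a (fun z => e₁ (e₂.symm z) i) (e₂ p) * X e₂ a (e₂ p) := by
  obtain ⟨W₁, -, hz₁, hg₁⟩ := exists_good hM α e₁ he₁ p hp hp₁ ⊤ trivial
  obtain ⟨W₀, -, hz₀, hg₀⟩ := exists_good hM α e₂ he₂ p hp hp₂ ⊤ trivial
  obtain ⟨W₂, hW₂, hz₂, ht⟩ := exists_trans hM e₁ e₂ he₁ he₂ p hp₁ hp₂ W₁ hz₁ W₀ hz₀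
  have hg₂ : Good α e₂ W₂ := hg₀.mono hW₂
  obtain ⟨ρ, hρ, haff, hpull⟩ := exists_trans_hom (P := P) (F := F) e₁ e₂ he₁ he₂ W₁ W₂ hg₁.target
    hg₂.target ht
  obtain ⟨A, b, hA, hb⟩ := ht.affine
  have h1 := pull_X (mor_of_affHom haff F) (hpull α hg₁ hg₂) (smx (Sum.inl i))
  have h2 : ρ (smx (Sum.inl i)) = ∑ a, A i a • smx (Sum.inl a)
      + algebraMap ℝ (Sm W₂) (b i) := by
    refine Sm.ext ?_
    rintro ⟨x, hx⟩
    rw [hρ]
    change kap e₁ e₂ x (Sum.inl i) = _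
    have h3 : kap e₁ e₂ x (Sum.inl i) = (A.mulVec (baseP x) + b) i := by
      unfold kap
      rw [hb x hx]
      rfl
    rw [h3]
    have h4 : (∑ a, A i a • smx (Sum.inl a) + algebraMap ℝ (Sm W₂) (b i) : Sm W₂).1 ⟨x, hx⟩
        = (∑ a, A i a • smx (Sum.inl a) : Sm W₂).1 ⟨x, hx⟩ + b i := rfl
    have h5 : (∑ a, A i a • smx (Sum.inl a) : Sm W₂).1 ⟨x, hx⟩
        = (Pi.evalRingHom (fun _ : W₂ => ℝ) ⟨x, hx⟩).comp (Sm W₂).subtype
          (∑ a, A i a • smx (Sum.inl a)) := rfl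
    rw [h4, h5, map_sum]
    rfl
  rw [h2, map_add, map_sum, Derivation.map_algebraMap, add_zero] at h1
  have h6 := congrArg (fun f : Sm W₂ => f.1 ⟨pt (e₂ p) 0, hz₂⟩) h1
  simp only [hρ] at h6
  have h7 : kap e₁ e₂ (pt (e₂ p) 0) = pt (e₁ p) 0 := by
    unfold kap
    rw [baseP_pt, fibP_pt, e₂.left_inv hp₂]
  have h8 : X e₁ i (e₁ p) = ((α.dat he₁ hg₁).X (smx (Sum.inl i))).1
      ⟨kap e₁ e₂ (pt (e₂ p) 0), ht.maps _ hz₂⟩ := by
    rw [hX e₁ he₁ W₁ hg₁ i (e₁ p) hz₁]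
    exact congrArg _ (Subtype.ext h7.symm)
  rw [h8, ← h6]
  have h9 : (∑ a, (α.dat he₂ hg₂).X (A i a • smx (Sum.inl a)) : Sm W₂).1 ⟨pt (e₂ p) 0, hz₂⟩
      = (Pi.evalRingHom (fun _ : W₂ => ℝ) ⟨pt (e₂ p) 0, hz₂⟩).comp (Sm W₂).subtype
        (∑ a, (α.dat he₂ hg₂).X (A i a • smx (Sum.inl a))) := rfl
  rw [h9, map_sum]
  refine Finset.sum_congr rfl fun a _ => ?_
  have h10 : pd a (fun z => e₁ (e₂.symm z) i) (e₂ p) = A i a := by
    refine mmor_pd_affine A b i a _ _ ?_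
    filter_upwards [mmor_eventually W₂ (pt (e₂ p) 0) hz₂] with y hy
    have := hb _ hy
    rw [baseP_pt] at this
    rw [this]
  rw [h10, hX e₂ he₂ W₂ hg₂ a (e₂ p) hz₂, Derivation.map_smul]
  rfl

end E214
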